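import Pool.Agent.Helper34_TDL.R0
import Pool.Agent.Helper33_TDL.Kap2

/-!
# The last case `R0Stmt` without hypotheses
-/

set_option autoImplicit false

namespace Pool.Agent.TDG.BR

theorem r0 : R0Stmt := r0_of_kap2 TDL.kap2

end Pool.Agent.TDG.BR
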