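import Pool.Agent.Helper33_TDL.Defs

/-!
# Total domination game, the last case of (DC'): the three situations and the main statements

Paper: `/team-store/PAPER_TDG_LAST34.md`.  Only VIABLE bad clusters are counted in `S`, `F`.
`F R = 2 f(R) = 2 |S(R)| - 2 |R| + |J(R)|`, `ph R = 2 φ(R) = 2 |R| - |J(R)|`.
-/

set_option autoImplicit false

namespace Pool.Agent.TDL

open Finset
open scoped Classical

variable {T P : Type}

/-- `2 φ(R)`. -/
noncomputable def ph (X : Pos T P) (R : Finset T) : ℤ := 2 * (R.card : ℤ) - ((J X R).card : ℤ)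

/-- All bad clusters closed by `R`. -/
noncomputable def Sall (X : Pos T P) (Bad : Finset T → Prop) (R : Finset T) :
    Finset (Finset T) :=
  X.U.powerset.filter fun V => Bad V ∧ Disjoint V R ∧ ∀ p ∈ X.A, Meets X p V → X.N p ⊆ V ∪ R

/-- `2 f(R)` with all bad clusters. -/
noncomputable def Fall (X : Pos T P) (Bad : Finset T → Prop) (R : Finset T) : ℤ :=
  2 * ((Sall X Bad R).card : ℤ) - 2 * (R.card : ℤ) + ((J X R).card : ℤ)

/-- `Q` attains the maximum of `F` over the sets containing `N x`. -/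
def Wit (X : Pos T P) (Bad : Finset T → Prop) (x : P) (Q : Finset T) : Prop :=
  X.N x ⊆ Q ∧ Q ⊆ X.U ∧ ∀ R, X.N x ⊆ R → R ⊆ X.U → F X Bad R ≤ F X Bad Q

/-- Class 2, no good move (heavy players and heavy targets are removed from `X`; a bad cluster
met by a heavy player is not `Bad`). -/
structure NG2 (X : Pos T P) (Bad : Finset T → Prop) : Prop where
  g0 : ∀ R, R ⊆ X.U → R.Nonempty → F X Bad R ≤ -1
  g1 : ∀ x ∈ X.A, ∀ Q, Wit X Bad x Q → -4 ≤ F X Bad Q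
  g2 : ∀ x ∈ X.A, ∀ Q, Wit X Bad x Q → 2 ≤ (J X (X.N x)).card → F X Bad Q = -1
  g3 : ∀ Q, Q ⊆ X.U → ph X Q = 1 → ∀ x ∈ J X Q, (X.N x).card = 1
  /-- every bad cluster has a token -/
  tok : ∀ V, Bad V → ∃ p ∈ X.A, Meets X p V ∧ ¬ X.N p ⊆ V
  /-- a target with exactly one pendant player has a further player -/
  pen : ∀ z ∈ X.U, (J X {z}).card = 1 → ∃ x ∈ X.A, z ∈ X.N x ∧ 2 ≤ (X.N x).card

/-- Class 1, no good move. -/
structure NG1 (X : Pos T P) (Bad : Finset T → Prop) : Prop where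
  ne : X.A.Nonempty
  g0 : ∀ R, R ⊆ X.U → R.Nonempty → F X Bad R ≤ -1
  g1 : ∀ x ∈ X.A, ∀ Q, Wit X Bad x Q → -2 ≤ F X Bad Q
  g4 : ∀ x ∈ X.A, ∀ Q, Q ⊆ X.U → X.N x ⊆ Q → 2 * ((X.N x).card : ℤ) - 1 ≤ ph X Q
  tok : ∀ V, Bad V → ∃ p ∈ X.A, Meets X p V ∧ ¬ X.N p ⊆ V
  pen : ∀ z ∈ X.U, (J X {z}).Nonempty → ∃ x ∈ X.A, z ∈ X.N x ∧ 2 ≤ (J X (X.N x)).card

/-- Class 2, no good move, no set with `f = -1/2`. -/
structure NG3 (X : Pos T P) (Bad : Finset T → Prop) : Prop where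
  conn : Conn X
  /-- every target has a player -/
  deg : ∀ t ∈ X.U, ∃ p ∈ X.A, t ∈ X.N p
  g0 : ∀ R, R ⊆ X.U → R.Nonempty → F X Bad R ≤ -2
  g1 : ∀ x ∈ X.A, ∀ Q, Wit X Bad x Q → -4 ≤ F X Bad Q
  g4 : ∀ x ∈ X.A, ∀ Q, Q ⊆ X.U → X.N x ⊆ Q → 2 * ((X.N x).card : ℤ) - 1 ≤ ph X Q
  phi : (X.U.card + X.A.card) % 3 = 2
  notbad : ¬ Bad X.U

/-! ### The main statements -/

/-- Class 1. -/
def Last1Stmt : Prop :=
  ∀ (T P : Type) (X : Pos T P) (Bad : Finset T → Prop),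
    (∀ V, Bad V → Clu X V) → NG1 X Bad → False

/-- Class 2, exclusion of sets with `f = -1/2`. -/
def HalfStmt : Prop :=
  ∀ (T P : Type) (X : Pos T P) (Bad : Finset T → Prop),
    (∀ V, Bad V → Clu X V) → NG2 X Bad → ∀ R, R ⊆ X.U → R.Nonempty → F X Bad R ≤ -2

/-- Class 2, `κ = 2` (helper33). -/
def Kap2Stmt : Prop :=
  ∀ (T P : Type) (X : Pos T P) (Bad : Finset T → Prop),
    (∀ V, Bad V → Clu X V) → NG3 X Bad →
    (∀ R, R ⊆ X.U → (S X Bad R).Nonempty → F X Bad R ≤ -4) →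
    (∃ x ∈ X.A, 3 ≤ (X.N x).card) → False

/-- Class 2, `κ = 1` and `κ = 3/2` are impossible. -/
def Kap1Stmt : Prop :=
  ∀ (T P : Type) (X : Pos T P) (Bad : Finset T → Prop),
    (∀ V, Bad V → Clu X V) → NG3 X Bad →
    ∀ R, R ⊆ X.U → (S X Bad R).Nonempty → F X Bad R ≤ -4

/-- Class 2. -/
def Last2Stmt : Prop :=
  ∀ (T P : Type) (X : Pos T P) (Bad : Finset T → Prop),
    (∀ V, Bad V → Clu X V) → NG3 X Bad → ∀ x ∈ X.A, (X.N x).card ≤ 2

theorem last2_of (h1 : Kap1Stmt) (h2 : Kap2Stmt) : Last2Stmt := by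
  intro T P X Bad hB hX x hx
  by_contra h
  exact h2 T P X Bad hB hX (h1 T P X Bad hB hX) ⟨x, hx, by omega⟩

/-- Conversion: private tokens can be removed. -/
def ConvStmt : Prop :=
  ∀ (T P : Type) (X : Pos T P) (Bad : Finset T → Prop),
    (∀ V, Bad V → Clu X V) → ∀ R, R ⊆ X.U →
    ∃ R', R' ⊆ R ∧ Fall X Bad R ≤ F X Bad R' ∧ J X R' = J X R ∧
      (∀ x ∈ X.A, X.N x ⊆ R → X.N x ⊆ R')

end Pool.Agent.TDL
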