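import Pool.Agent.Helper34_TDL.Brg0
import Pool.Agent.Helper53_TDG.Comp

/-!
# Bridge: the last case `R0Stmt` from the abstract statements
-/

set_option autoImplicit false
set_option linter.unusedSectionVars false

namespace Pool.Agent.TDL.H34B

open scoped Classical

lemma S_sub_Sall {T P : Type} (X : Pos T P) (Bad : Finset T → Prop) (R : Finset T) :
    S X Bad R ⊆ Sall X Bad R := by
  intro C hC
  have h := Finset.mem_filter.1 hC
  exact Finset.mem_filter.2 ⟨h.1, h.2.1, h.2.2.2⟩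

lemma meets_sdiff_intro {T P : Type} (X : Pos T P) {p : P} {a : T} {L : Finset T}
    (h1 : a ∈ X.N p) (h2 : a ∈ X.U) (h3 : a ∉ L) : Meets X p (X.U \ L) := by
  unfold Meets
  rw [Finset.not_disjoint_iff]
  exact ⟨a, h1, Finset.mem_sdiff.2 ⟨h2, h3⟩⟩

end Pool.Agent.TDL.H34B

namespace Pool.Agent.TDG.BR

open Finset Helper77.TDG

section

variable {V X : Type} [Fintype V] [DecidableEq V] [DecidableEq X] {N : V → Finset X}
  {Hv U : Finset X}

lemma exists_player (hW : World N Hv) (x : X) : ∃ v, x ∈ N v := by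
  by_cases h : x ∈ Hv
  · have h1 := hW.one x h
    obtain ⟨v, hv⟩ := Finset.card_pos.1 (by omega : 0 < (univ.filter fun v => x ∈ N v).card)
    exact ⟨v, (Finset.mem_filter.1 hv).2⟩
  · have h1 := hW.two x h
    obtain ⟨v, hv⟩ := Finset.card_pos.1 (by omega : 0 < (univ.filter fun v => x ∈ N v).card)
    exact ⟨v, (Finset.mem_filter.1 hv).2⟩

lemma mem_A {v : V} : v ∈ (posOf N Hv U).A ↔ (N v ∩ U).Nonempty ∧ N v ∩ U ⊆ U \ Hv := by
  simp [posOf, mem_alive]

lemma posN (v : V) : (posOf N Hv U).N v = N v ∩ U := rfl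

lemma posU : (posOf N Hv U).U = U \ Hv := rfl

lemma meets_pos {v : V} {C : Finset X} (hC : C ⊆ U) :
    TDL.Meets (posOf N Hv U) v C ↔ (N v ∩ C).Nonempty := by
  unfold TDL.Meets
  rw [posN, Finset.not_disjoint_iff_nonempty_inter]
  have : N v ∩ U ∩ C = N v ∩ C := by
    ext a
    simp only [mem_inter]
    constructor
    · rintro ⟨⟨h1, -⟩, h2⟩
      exact ⟨h1, h2⟩
    · rintro ⟨h1, h2⟩
      exact ⟨⟨h1, hC h2⟩, h2⟩
  rw [this]

lemma F_le_Fall (R : Finset X) :
    TDL.F (posOf N Hv U) (badOf N Hv U) R ≤ TDL.Fall (posOf N Hv U) (badOf N Hv U) R := by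
  have h := Finset.card_le_card
    (TDL.H34B.S_sub_Sall (posOf N Hv U) (badOf N Hv U) R)
  unfold TDL.F TDL.Fall
  omega

end

/-- Every bad cluster has a token. -/
lemma tok_of {V X : Type} [Fintype V] [DecidableEq V] [DecidableEq X] {N : V → Finset X}
    {Hv U C : Finset X} (hc : Conn N U) (hb : ¬ Bad N Hv U) (hC : badOf N Hv U C) :
    ∃ p ∈ (posOf N Hv U).A, TDL.Meets (posOf N Hv U) p C ∧ ¬ (posOf N Hv U).N p ⊆ C := by
  by_contra hno
  push Not at hno
  have hCU : C ⊆ U := hC.1.trans sdiff_subset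
  have hcl : Closed N U C := by
    refine ⟨hCU, fun v hv => ?_⟩
    have hvA : v ∈ (posOf N Hv U).A := by
      rw [mem_A]
      refine ⟨?_, hC.2.2 v hv⟩
      obtain ⟨a, ha⟩ := hv
      rw [mem_inter] at ha
      exact ⟨a, mem_inter.2 ⟨ha.1, hCU ha.2⟩⟩
    exact hno v hvA ((meets_pos hCU).2 hv)
  have := hc.2 C hC.2.1.1.1 hcl
  rw [this] at hC
  exact hb hC.2.1

theorem r0_of (hConv : TDL.ConvStmt) (hL1 : TDL.Last1Stmt) (hHalf : TDL.HalfStmt)
    (hL2 : TDL.Last2Stmt) (hNB : NBStmt) (hClu : CluOfStmt) (hFall : FallStmt)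
    (hDL : DropLightStmt) (hDH : DropHeavyStmt) : R0Stmt := by
  intro V X _ _ _ N Hv U hctx hF2 hMM hR hsc
  have hW := hctx.hW
  have hc := hctx.hc
  have hnb := hctx.hb
  have hih := hctx.ih
  set Y := posOf N Hv U with hY
  set Bd := badOf N Hv U with hBd
  have hclu : ∀ C, Bd C → TDL.Clu Y C := fun C hC => hClu V X N Hv U C hW hC
  -- a legal player
  obtain ⟨z₀, hz₀⟩ := hc.1
  obtain ⟨v₀, hv₀⟩ := exists_player hW z₀
  have hv₀l : (N v₀ ∩ U).Nonempty := ⟨z₀, mem_inter.2 ⟨hv₀, hz₀⟩⟩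
  have hMpos : 1 ≤ MM N Hv U := by
    have := hsc v₀ hv₀l
    have h0 : (0 : ℤ) ≤ (ns N (U \ N v₀) : ℤ) := Int.natCast_nonneg _
    omega
  have hsf0 : ∀ R, R ⊆ U \ Hv → sf N Hv U R ≤ 0 := by
    intro R hRU
    have := sf_le_F2 (N := N) hRU
    omega
  have hg0 : ∀ R, R ⊆ Y.U → R.Nonempty → TDL.F Y Bd R ≤ -1 := by
    intro R hRU hne
    have h1 := F_le_Fall (N := N) (Hv := Hv) (U := U) R
    have h2 := (hFall V X N Hv U R hW hRU).1
    have h3 := (hR R hRU hne).1
    rw [h2] at h1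
    exact h1.trans h3
  -- a witness for F is at least a maximiser of sf
  have hwit : ∀ x ∈ Y.A, ∀ Q, TDL.Wit Y Bd x Q → ∀ T, N x ∩ U ⊆ T → T ⊆ U \ Hv →
      sf N Hv U T ≤ TDL.F Y Bd Q := by
    intro x hx Q hQ T hT hTU
    obtain ⟨R', hR', h1, h2, h3⟩ := hConv X V Y Bd hclu T hTU
    rw [(hFall V X N Hv U T hW hTU).1] at h1
    have h4 := h3 x hx hT
    have h5 := hQ.2.2 R' h4 (hR'.trans hTU)
    exact h1.trans h5
  have htok : ∀ C, Bd C → ∃ p ∈ Y.A, TDL.Meets Y p C ∧ ¬ Y.N p ⊆ C :=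
    fun C hC => tok_of hc hnb hC
  have hJmem : ∀ v, (N v ∩ U).Nonempty → ∀ Z, N v ∩ U ⊆ Z → v ∈ J N U Z := by
    intro v hv Z hZ
    rw [mem_J]
    exact ⟨hv, hZ⟩
  -- players at an ordinary target
  have hother : ∀ z ∈ U \ Hv, ∀ p, ∃ v, v ≠ p ∧ z ∈ N v := by
    intro z hz p
    have h1 := hW.two z (mem_sdiff.1 hz).2
    obtain ⟨v, hv, hvp⟩ := Finset.exists_mem_ne (by omega : 1 < (univ.filter fun v => z ∈ N v).card) p
    exact ⟨v, hvp, (Finset.mem_filter.1 hv).2⟩
  by_contra hns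
  have hloc : ¬ LocOK N (ns N) U (MM N Hv U).toNat := by
    intro h
    have := ns_le_of_loc h
    omega
  have hM0 : ((MM N Hv U).toNat : ℤ) = MM N Hv U := Int.toNat_of_nonneg (by omega)
  -- the two situations
  have hcases : (MM N Hv U % 2 = 1 ∧ ∀ v, (N v ∩ U).Nonempty →
        MM N Hv U < (ns N (U \ N v) : ℤ) + 3) ∨
      (MM N Hv U % 4 = 2 ∧ ∀ v, (N v ∩ U).Nonempty →
        MM N Hv U < (ns N (U \ N v) : ℤ) + 2) := by
    by_contra hno
    rw [not_or] at hno
    apply hloc
    refine ⟨fun v hv => ?_, fun hodd => ?_, fun htwo => ?_⟩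
    · have := hsc v hv
      omega
    · have h1 := hno.1
      rw [not_and] at h1
      have h2 := h1 (by omega)
      push Not at h2
      obtain ⟨v, hv, h3⟩ := h2
      exact ⟨v, hv, by omega⟩
    · have h1 := hno.2
      rw [not_and] at h1
      have h2 := h1 (by omega)
      push Not at h2
      obtain ⟨v, hv, h3⟩ := h2
      exact ⟨v, hv, by omega⟩
  rcases hcases with ⟨hodd, hng⟩ | ⟨htwo, hng⟩
  · -- class 2
    have hPhi : 2 * (Phi N Hv U : ℤ) = 3 * MM N Hv U + 1 := by omega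
    have hlight : ∀ v, (N v ∩ U).Nonempty → ∀ Z, N v ∩ U ⊆ Z → Z ⊆ U \ Hv →
        ∃ T, Z ⊆ T ∧ T ⊆ U \ Hv ∧
          3 * (2 * ((N v ∩ U).card : ℤ) - ph N U Z) ≤ 7 + sf N Hv U T ∧
          ∀ T', Z ⊆ T' → T' ⊆ U \ Hv → sf N Hv U T' ≤ sf N Hv U T := by
      intro v hv Z hZ hZU
      obtain ⟨T, h1, h2, h3, h4⟩ := hDL V X N Hv U Z v hW hih hv hZ hZU
      have := hng v hv
      exact ⟨T, h1, h2, by linarith, h3⟩
    have hheavy : ∀ v, (N v ∩ U).Nonempty → ¬ N v ∩ U ⊆ U \ Hv →
        ∃ T, (N v ∩ U) \ Hv ⊆ T ∧ T ⊆ U \ Hv ∧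
          3 * ((J N U ((N v ∩ U) \ Hv)).card : ℤ) ≤ sf N Hv U T + 1 := by
      intro v hv hvH
      obtain ⟨T, h1, h2, h3, h4⟩ := hDH V X N Hv U v hW hih hv hvH
      have := hng v hv
      exact ⟨T, h1, h2, by linarith⟩
    have hphJ : ∀ Z : Finset X, ph N U Z = 2 * (Z.card : ℤ) - ((J N U Z).card : ℤ) :=
      fun Z => rfl
    have hlight1 : ∀ v, (N v ∩ U).Nonempty → N v ∩ U ⊆ U \ Hv →
        ∃ T, N v ∩ U ⊆ T ∧ T ⊆ U \ Hv ∧
          3 * ((J N U (N v ∩ U)).card : ℤ) ≤ 7 + sf N Hv U T := by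
      intro v hv hvU
      obtain ⟨T, h1, h2, h3, -⟩ := hlight v hv (N v ∩ U) (Subset.refl _) hvU
      rw [hphJ] at h3
      exact ⟨T, h1, h2, by linarith⟩
    have hNG2 : TDL.NG2 Y Bd := by
      refine ⟨hg0, ?_, ?_, ?_, htok, ?_⟩
      · intro x hx Q hQ
        obtain ⟨hx1, hx2⟩ := mem_A.1 hx
        obtain ⟨T, h1, h2, h3⟩ := hlight1 x hx1 hx2
        have h4 := hwit x hx Q hQ T h1 h2
        have h5 : 1 ≤ (J N U (N x ∩ U)).card :=
          Finset.card_pos.2 ⟨x, hJmem x hx1 _ (Subset.refl _)⟩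
        omega
      · intro x hx Q hQ hk
        obtain ⟨hx1, hx2⟩ := mem_A.1 hx
        obtain ⟨T, h1, h2, h3⟩ := hlight1 x hx1 hx2
        have h4 := hwit x hx Q hQ T h1 h2
        have h5 : (TDL.J Y (Y.N x)).card = (J N U (N x ∩ U)).card := by
          rw [← (hFall V X N Hv U (N x ∩ U) hW hx2).2.2]
          rfl
        have h6 := hg0 Q hQ.2.1 ((Y.ne x hx).mono hQ.1)
        have h7 : (2 : ℤ) ≤ ((J N U (N x ∩ U)).card : ℤ) := by
          rw [← h5]
          exact_mod_cast hk
        have h8 : -1 ≤ sf N Hv U T := by linarith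
        linarith
      · intro Q hQU hph x hx
        have hx' := (hFall V X N Hv U Q hW hQU).2.2
        have hxJ : x ∈ J N U Q := by
          rw [← hx']
          exact hx
        rw [mem_J] at hxJ
        obtain ⟨T, h1, h2, h3, -⟩ := hlight x hxJ.1 Q hxJ.2 hQU
        have hphQ : ph N U Q = 1 := by
          rw [← (hFall V X N Hv U Q hW hQU).2.1]
          exact hph
        have hTne : T.Nonempty := (hxJ.1.mono hxJ.2).mono h1
        have h4 := (hR T h2 hTne).1
        have h5 : 1 ≤ (N x ∩ U).card := Finset.card_pos.2 hxJ.1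
        rw [posN]
        omega
      · intro z hz hJz
        obtain ⟨p, hp⟩ := Finset.card_eq_one.1 hJz
        have hJe := (hFall V X N Hv U {z} hW (Finset.singleton_subset_iff.2 hz)).2.2
        have hpJ : p ∈ J N U {z} := by
          rw [← hJe]
          show p ∈ TDL.J Y {z}
          rw [hp]
          simp
        obtain ⟨v, hvp, hzv⟩ := hother z hz p
        have hzU : z ∈ U := (mem_sdiff.1 hz).1
        have hvl : (N v ∩ U).Nonempty := ⟨z, mem_inter.2 ⟨hzv, hzU⟩⟩
        by_cases hvH : N v ∩ U ⊆ U \ Hv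
        · refine ⟨v, mem_A.2 ⟨hvl, hvH⟩, mem_inter.2 ⟨hzv, hzU⟩, ?_⟩
          rw [posN]
          by_contra hlt
          have h1 : (N v ∩ U).card = 1 := by
            have := Finset.card_pos.2 hvl
            omega
          obtain ⟨c, hcc⟩ := Finset.card_eq_one.1 h1
          have hzc : z = c := by
            have : z ∈ N v ∩ U := mem_inter.2 ⟨hzv, hzU⟩
            rw [hcc, mem_singleton] at this
            exact this
          have hvJ : v ∈ J N U {z} := by
            rw [mem_J]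
            refine ⟨hvl, ?_⟩
            rw [hcc, hzc]
          have hvJ' : v ∈ TDL.J Y {z} := by
            show v ∈ TDL.J (posOf N Hv U) {z}
            rw [hJe]
            exact hvJ
          rw [hp, mem_singleton] at hvJ'
          exact hvp hvJ'
        · exfalso
          obtain ⟨T, h1, h2, h3⟩ := hheavy v hvl hvH
          have hzZ : z ∈ (N v ∩ U) \ Hv :=
            mem_sdiff.2 ⟨mem_inter.2 ⟨hzv, hzU⟩, (mem_sdiff.1 hz).2⟩
          have h4 := (hR T h2 ⟨z, h1 hzZ⟩).1
          have h5 : p ∈ J N U ((N v ∩ U) \ Hv) := by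
            rw [mem_J] at hpJ ⊢
            exact ⟨hpJ.1, hpJ.2.trans (Finset.singleton_subset_iff.2 hzZ)⟩
          have h6 : 1 ≤ (J N U ((N v ∩ U) \ Hv)).card := Finset.card_pos.2 ⟨p, h5⟩
          omega
    have hF2' := hHalf X V Y Bd hclu hNG2
    -- real sf ≤ -2
    have hsf2 : ∀ R, R ⊆ U \ Hv → R.Nonempty → sf N Hv U R ≤ -2 := by
      intro R hRU hne
      obtain ⟨R', hR', h1, h2, h3⟩ := hConv X V Y Bd hclu R hRU
      have hf := hFall V X N Hv U R hW hRU
      rw [hf.1] at h1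
      rcases R'.eq_empty_or_nonempty with he | hne'
      · have h4 := (hR R hRU hne).1
        have h5 : TDL.J Y R = ∅ := by
          rw [← h2, he]
          rw [Finset.eq_empty_iff_forall_notMem]
          intro p hp
          unfold TDL.J at hp
          rw [mem_filter] at hp
          obtain ⟨a, ha⟩ := Y.ne p hp.1
          simpa using hp.2 ha
        have h6 : sf N Hv U R = 2 * ((TDL.Sall Y Bd R).card : ℤ) - 2 * (R.card : ℤ) := by
          rw [← hf.1]
          show TDL.Fall Y Bd R = _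
          unfold TDL.Fall
          rw [h5]
          simp
        omega
      · exact h1.trans (hF2' R' (hR'.trans hRU) hne')
    -- no heavy players
    have hlightall : ∀ v, (N v ∩ U).Nonempty → N v ∩ U ⊆ U \ Hv := by
      intro v hvl
      by_contra hvH
      obtain ⟨T, h1, h2, h3⟩ := hheavy v hvl hvH
      by_cases hZ : ((N v ∩ U) \ Hv).Nonempty
      · have h4 := hsf2 T h2 (hZ.mono h1)
        have h5 : (0 : ℤ) ≤ ((J N U ((N v ∩ U) \ Hv)).card : ℤ) := Int.natCast_nonneg _
        omega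
      · rw [not_nonempty_iff_eq_empty, sdiff_eq_empty_iff_subset] at hZ
        obtain ⟨h, hh⟩ := hvl
        have hhH := hZ hh
        have hone : ∀ w, h ∈ N w → w = v := by
          intro w hw
          have := hW.one h hhH
          rw [card_eq_one] at this
          obtain ⟨u, hu⟩ := this
          have hv' : v ∈ (univ.filter fun v => h ∈ N v) := by simp [(mem_inter.1 hh).1]
          have hw' : w ∈ (univ.filter fun v => h ∈ N v) := by simp [hw]
          rw [hu, mem_singleton] at hv' hw'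
          rw [hv', hw']
        have hNv : N v ∩ U = {h} := by
          ext a
          rw [mem_singleton]
          constructor
          · intro ha
            have h4 := hW.heavy v
            rw [card_le_one] at h4
            exact h4 a (mem_inter.2 ⟨(mem_inter.1 ha).1, hZ ha⟩) h
              (mem_inter.2 ⟨(mem_inter.1 hh).1, hhH⟩)
          · rintro rfl
            exact hh
        have hcl : Closed N U {h} := by
          refine ⟨Finset.singleton_subset_iff.2 (mem_inter.1 hh).2, fun w hw => ?_⟩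
          obtain ⟨a, ha⟩ := hw
          rw [mem_inter, mem_singleton] at ha
          have := hone w (ha.2 ▸ ha.1)
          rw [this, hNv]
        have hU := hc.2 {h} (Finset.singleton_nonempty h) hcl
        have hal : alive N U = {v} := by
          ext w
          rw [mem_alive, mem_singleton]
          constructor
          · rintro ⟨a, ha⟩
            rw [← hU, mem_inter, mem_singleton] at ha
            exact hone w (ha.2 ▸ ha.1)
          · rintro rfl
            exact ⟨h, hh⟩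
        have hP : Phi N Hv U = 3 := by
          unfold Phi
          rw [hal, ← hU]
          have : ({h} : Finset X) ∩ Hv = {h} := by
            rw [inter_eq_left, singleton_subset_iff]
            exact hhH
          rw [this]
          simp
        rw [hP] at hPhi
        omega
    have hdisj : Disjoint U Hv := by
      rw [disjoint_left]
      intro a ha haH
      obtain ⟨v, hv⟩ := exists_player hW a
      have := hlightall v ⟨a, mem_inter.2 ⟨hv, ha⟩⟩ (mem_inter.2 ⟨hv, ha⟩)
      exact (mem_sdiff.1 this).2 haH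
    have hUU : U \ Hv = U := sdiff_eq_self_of_disjoint hdisj
    have hYA : Y.A = alive N U := by
      ext v
      rw [mem_alive]
      constructor
      · intro h
        exact (mem_A.1 h).1
      · intro h
        exact mem_A.2 ⟨h, hlightall v h⟩
    have hNG3 : TDL.NG3 Y Bd := by
      refine ⟨?_, ?_, ?_, hNG2.g1, ?_, ?_, ?_⟩
      · intro L hLU hLne hLneq
        by_contra hno
        push Not at hno
        rw [posU, hUU] at hLU hLneq
        apply hLneq
        refine hc.2 L hLne ⟨hLU, fun v hv => ?_⟩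
        have hvl : (N v ∩ U).Nonempty := by
          obtain ⟨a, ha⟩ := hv
          rw [mem_inter] at ha
          exact ⟨a, mem_inter.2 ⟨ha.1, hLU ha.2⟩⟩
        have h1 := hno v (mem_A.2 ⟨hvl, hlightall v hvl⟩) ((meets_pos hLU).2 hv)
        intro a ha
        by_contra haL
        exact h1 (TDL.H34B.meets_sdiff_intro _ ha ((hlightall v hvl) ha) haL)
      · intro t ht
        obtain ⟨v, hv⟩ := exists_player hW t
        have htU : t ∈ U := (mem_sdiff.1 ht).1
        have hvl : (N v ∩ U).Nonempty := ⟨t, mem_inter.2 ⟨hv, htU⟩⟩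
        exact ⟨v, mem_A.2 ⟨hvl, hlightall v hvl⟩, mem_inter.2 ⟨hv, htU⟩⟩
      · intro R hRU hne
        exact hF2' R hRU hne
      · intro x hx Q hQU hxQ
        obtain ⟨hx1, hx2⟩ := mem_A.1 hx
        obtain ⟨T, h1, h2, h3, -⟩ := hlight x hx1 Q hxQ hQU
        have h4 := hsf2 T h2 ((hx1.mono hxQ).mono h1)
        rw [(hFall V X N Hv U Q hW hQU).2.1, posN]
        omega
      · rw [hYA, posU, hUU]
        have : Phi N Hv U = U.card + (alive N U).card := by
          unfold Phi
          rw [disjoint_iff_inter_eq_empty.1 hdisj]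
          simp
        rw [this] at hPhi
        omega
      · rw [posU, hUU]
        exact fun h => hnb h.2.1
    have hle2 := hL2 X V Y Bd hclu hNG3
    have hgr : IsGraph N Hv U := by
      refine ⟨hdisj, fun v hvl => ?_⟩
      have h1 := hle2 v (mem_A.2 ⟨hvl, hlightall v hvl⟩)
      rw [posN] at h1
      by_contra hne
      have h2 := Finset.card_pos.2 hvl
      have h3 : (N v ∩ U).card = 1 := by omega
      have h4 := hsf2 (N v ∩ U) (hlightall v hvl) hvl
      have h5 : 1 ≤ (J N U (N v ∩ U)).card :=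
        Finset.card_pos.2 ⟨v, hJmem v hvl _ (Subset.refl _)⟩
      unfold sf at h4
      rw [hphJ, h3] at h4
      omega
    have hnb1 := hNB V X N Hv U hW hc hgr
    have hnb2 : ¬ (Phi N Hv U % 6 = 5 ∧ 3 * ns N U = 2 * (Phi N Hv U + 1)) :=
      fun h => hnb ⟨hc, hgr, h.1, h.2⟩
    have h6 : Phi N Hv U % 6 = 5 ∨ Phi N Hv U % 6 = 2 := by omega
    rcases h6 with h6 | h6
    · have h7 := hnb1.1 h6
      have h8 : 3 * ns N U ≠ 2 * (Phi N Hv U + 1) := fun h => hnb2 ⟨h6, h⟩
      omega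
    · have h7 := hnb1.2 h6
      omega
  · -- classes 0 and 1
    have hphJ : ∀ Z : Finset X, ph N U Z = 2 * (Z.card : ℤ) - ((J N U Z).card : ℤ) :=
      fun Z => rfl
    -- no heavy players
    have hlightall : ∀ v, (N v ∩ U).Nonempty → N v ∩ U ⊆ U \ Hv := by
      intro v hvl
      by_contra hvH
      obtain ⟨T, h1, h2, h3, h4⟩ := hDH V X N Hv U v hW hih hvl hvH
      have h5 := hng v hvl
      have h6 := hsf0 T h2
      have h7 : (0 : ℤ) ≤ ((J N U ((N v ∩ U) \ Hv)).card : ℤ) := Int.natCast_nonneg _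
      omega
    have hlight : ∀ v, (N v ∩ U).Nonempty → ∀ Z, N v ∩ U ⊆ Z → Z ⊆ U \ Hv →
        ∃ T, Z ⊆ T ∧ T ⊆ U \ Hv ∧
          3 * (2 * ((N v ∩ U).card : ℤ) - ph N U Z) ≤ 3 + sf N Hv U T +
            (2 * (Phi N Hv U : ℤ) - 3 * MM N Hv U) := by
      intro v hv Z hZ hZU
      obtain ⟨T, h1, h2, h3, h4⟩ := hDL V X N Hv U Z v hW hih hv hZ hZU
      have := hng v hv
      exact ⟨T, h1, h2, by linarith⟩
    have hlight1 : ∀ v, (N v ∩ U).Nonempty →
        ∃ T, N v ∩ U ⊆ T ∧ T ⊆ U \ Hv ∧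
          3 * ((J N U (N v ∩ U)).card : ℤ) ≤ 3 + sf N Hv U T +
            (2 * (Phi N Hv U : ℤ) - 3 * MM N Hv U) := by
      intro v hv
      obtain ⟨T, h1, h2, h3⟩ := hlight v hv (N v ∩ U) (Subset.refl _) (hlightall v hv)
      rw [hphJ] at h3
      exact ⟨T, h1, h2, by linarith⟩
    have hcls : 2 * (Phi N Hv U : ℤ) = 3 * MM N Hv U ∨
        2 * (Phi N Hv U : ℤ) = 3 * MM N Hv U + 2 := by omega
    rcases hcls with hcls | hcls
    · obtain ⟨T, h1, h2, h3⟩ := hlight1 v₀ hv₀l
      have h4 := (hR T h2 (hv₀l.mono h1)).1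
      have h5 : 1 ≤ (J N U (N v₀ ∩ U)).card :=
        Finset.card_pos.2 ⟨v₀, hJmem v₀ hv₀l _ (Subset.refl _)⟩
      omega
    · refine hL1 X V Y Bd hclu ⟨⟨v₀, mem_A.2 ⟨hv₀l, hlightall v₀ hv₀l⟩⟩, hg0, ?_, ?_, htok, ?_⟩
      · intro x hx Q hQ
        obtain ⟨hx1, hx2⟩ := mem_A.1 hx
        obtain ⟨T, h1, h2, h3⟩ := hlight1 x hx1
        have h4 := hwit x hx Q hQ T h1 h2
        have h5 : 1 ≤ (J N U (N x ∩ U)).card :=
          Finset.card_pos.2 ⟨x, hJmem x hx1 _ (Subset.refl _)⟩
        omega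
      · intro x hx Q hQU hxQ
        obtain ⟨hx1, hx2⟩ := mem_A.1 hx
        obtain ⟨T, h1, h2, h3⟩ := hlight x hx1 Q hxQ hQU
        have h4 := (hR T h2 ((hx1.mono hxQ).mono h1)).1
        rw [(hFall V X N Hv U Q hW hQU).2.1, posN]
        omega
      · intro z hz hJz
        obtain ⟨p, hp⟩ := hJz
        have hJe := (hFall V X N Hv U {z} hW (Finset.singleton_subset_iff.2 hz)).2.2
        have hpJ : p ∈ J N U {z} := by
          rw [← hJe]
          exact hp
        obtain ⟨v, hvp, hzv⟩ := hother z hz p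
        have hzU : z ∈ U := (mem_sdiff.1 hz).1
        have hvl : (N v ∩ U).Nonempty := ⟨z, mem_inter.2 ⟨hzv, hzU⟩⟩
        refine ⟨v, mem_A.2 ⟨hvl, hlightall v hvl⟩, mem_inter.2 ⟨hzv, hzU⟩, ?_⟩
        have hJv : TDL.J Y (Y.N v) = J N U (N v ∩ U) :=
          (hFall V X N Hv U (N v ∩ U) hW (hlightall v hvl)).2.2
        rw [hJv]
        have h1 : ({p, v} : Finset V) ⊆ J N U (N v ∩ U) := by
          intro w hw
          simp only [mem_insert, mem_singleton] at hw
          rcases hw with rfl | rfl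
          · rw [mem_J] at hpJ ⊢
            exact ⟨hpJ.1, hpJ.2.trans (Finset.singleton_subset_iff.2
              (mem_inter.2 ⟨hzv, hzU⟩))⟩
          · exact hJmem _ hvl _ (Subset.refl _)
        have h2 := Finset.card_le_card h1
        rw [Finset.card_pair hvp.symm] at h2
        exact h2

end Pool.Agent.TDG.BR
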