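import Pool.Agent.Helper29_TDG.Stmts
import Pool.Agent.Helper34_TDL.Defs

/-!
# Bridge from the world of the game to the abstract last case: definitions and statements
-/

set_option autoImplicit false
set_option linter.unusedSectionVars false

namespace Pool.Agent.TDG.BR

open Finset Helper77.TDG

section Defs

variable {V X : Type} [Fintype V] [DecidableEq V] [DecidableEq X]

/-- The abstract position: ordinary targets of `U`, players without heavy targets. -/
noncomputable def posOf (N : V → Finset X) (Hv U : Finset X) : TDL.Pos X V where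
  U := U \ Hv
  A := (alive N U).filter fun v => N v ∩ U ⊆ U \ Hv
  N := fun v => N v ∩ U
  sub := fun p hp => (mem_filter.1 hp).2
  ne := fun p hp => mem_alive.1 (mem_filter.1 hp).1

/-- Bad clusters which meet no heavy player. -/
def badOf (N : V → Finset X) (Hv U C : Finset X) : Prop :=
  C ⊆ U \ Hv ∧ Bad N Hv C ∧ ∀ v, (N v ∩ C).Nonempty → N v ∩ U ⊆ U \ Hv

end Defs

/-- CLU (helper71): the facts about truly bad graphs. -/
def CluOfStmt : Prop :=
  ∀ (V X : Type) [Fintype V] [DecidableEq V] [DecidableEq X] (N : V → Finset X)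
    (Hv U C : Finset X), World N Hv → badOf N Hv U C → TDL.Clu (posOf N Hv U) C

/-- FAL: translation of `sf`, `ph`, `J`. -/
def FallStmt : Prop :=
  ∀ (V X : Type) [Fintype V] [DecidableEq V] [DecidableEq X] (N : V → Finset X)
    (Hv U R : Finset X), World N Hv → R ⊆ U \ Hv →
    TDL.Fall (posOf N Hv U) (badOf N Hv U) R = sf N Hv U R ∧
    TDL.ph (posOf N Hv U) R = ph N U R ∧
    TDL.J (posOf N Hv U) R = J N U R

/-- DRL (helper53): light move followed by the extraction of `Z`. -/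
def DropLightStmt : Prop :=
  ∀ (V X : Type) [Fintype V] [DecidableEq V] [DecidableEq X] (N : V → Finset X)
    (Hv U Z : Finset X) (v : V), World N Hv → (∀ W, W ⊂ U → (ns N W : ℤ) ≤ MM N Hv W) →
    (N v ∩ U).Nonempty → N v ∩ U ⊆ Z → Z ⊆ U \ Hv →
    ∃ T, Z ⊆ T ∧ T ⊆ U \ Hv ∧ (∀ T', Z ⊆ T' → T' ⊆ U \ Hv → sf N Hv U T' ≤ sf N Hv U T) ∧
      3 * (ns N (U \ N v) : ℤ) + 6 * ((N v ∩ U).card : ℤ) ≤
        3 * ph N U Z + sf N Hv U T + 2 * (Phi N Hv U : ℤ)

/-- DRH (helper53): heavy move. -/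
def DropHeavyStmt : Prop :=
  ∀ (V X : Type) [Fintype V] [DecidableEq V] [DecidableEq X] (N : V → Finset X)
    (Hv U : Finset X) (v : V), World N Hv → (∀ W, W ⊂ U → (ns N W : ℤ) ≤ MM N Hv W) →
    (N v ∩ U).Nonempty → ¬ N v ∩ U ⊆ U \ Hv →
    ∃ T, (N v ∩ U) \ Hv ⊆ T ∧ T ⊆ U \ Hv ∧
      (∀ T', (N v ∩ U) \ Hv ⊆ T' → T' ⊆ U \ Hv → sf N Hv U T' ≤ sf N Hv U T) ∧
      3 * (ns N (U \ N v) : ℤ) + 3 * ((J N U ((N v ∩ U) \ Hv)).card : ℤ) + 6 ≤
        sf N Hv U T + 2 * (Phi N Hv U : ℤ)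

end Pool.Agent.TDG.BR
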