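import Pool.Agent.Helper34_TDL.Brg
import Pool.Agent.Helper71_TDG.TwoConn

/-!
# Bridge: the facts on truly bad graphs
-/

set_option autoImplicit false
set_option linter.unusedSectionVars false

namespace Pool.Agent.TDG.BR

open Finset Helper77.TDG
open scoped Classical

theorem cluOf : CluOfStmt := by
  intro V X _ i1 i2 N Hv U C hW hC
  have e1 : i1 = fun a b => Classical.propDecidable (a = b) := Subsingleton.elim _ _
  subst e1
  have e2 : i2 = fun a b => Classical.propDecidable (a = b) := Subsingleton.elim _ _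
  subst e2
  have h := H71.badK_of_bad hW hC.2.1
  have hN : ∀ x, ∃ v, x ∈ N v := exists_player hW
  have hCU : C ⊆ U := hC.1.trans sdiff_subset
  have hmemA : ∀ v, (N v ∩ C).Nonempty → v ∈ (posOf N Hv U).A := by
    intro v hv
    rw [mem_A]
    refine ⟨?_, hC.2.2 v hv⟩
    obtain ⟨a, ha⟩ := hv
    rw [mem_inter] at ha
    exact ⟨a, mem_inter.2 ⟨ha.1, hCU ha.2⟩⟩
  have hinter : ∀ v, (posOf N Hv U).N v ∩ C = N v ∩ C := by
    intro v
    rw [posN]
    ext a
    simp only [mem_inter]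
    constructor
    · rintro ⟨⟨h1, -⟩, h2⟩
      exact ⟨h1, h2⟩
    · rintro ⟨h1, h2⟩
      exact ⟨⟨h1, hCU h2⟩, h2⟩
  have hmc : ∀ v, TDL.Meets (posOf N Hv U) v C ↔ (N v ∩ C).Nonempty := fun v => meets_pos hCU
  have hEi : ∀ B : Finset X, B ⊆ C → TDL.Ei (posOf N Hv U) C B = J N C B := by
    intro B hB
    ext v
    unfold TDL.Ei
    rw [mem_J, mem_filter, hmc, hinter]
    constructor
    · rintro ⟨h1, h2, h3⟩
      exact ⟨h2, h3⟩
    · rintro ⟨h2, h3⟩
      exact ⟨hmemA v h2, h2, h3⟩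
  have hE : TDL.E (posOf N Hv U) C = alive N C := by
    ext v
    unfold TDL.E
    rw [mem_alive, mem_filter, hmc]
    constructor
    · rintro ⟨h1, h2⟩
      exact h2
    · intro h2
      exact ⟨hmemA v h2, h2⟩
  have hdeg : ∀ z ∈ C, TDL.deg (posOf N Hv U) z = (univ.filter fun w => z ∈ N w).card := by
    intro z hz
    unfold TDL.deg
    congr 1
    ext v
    rw [mem_filter, mem_filter, posN, mem_inter]
    constructor
    · rintro ⟨h1, h2, h3⟩
      exact ⟨mem_univ _, h2⟩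
    · rintro ⟨-, h2⟩
      exact ⟨hmemA v ⟨z, mem_inter.2 ⟨h2, hz⟩⟩, h2, hCU hz⟩
  -- connectedness
  have hconn : ∀ K : Finset X, K ⊆ C → Conn N K → ∀ L, L ⊆ K → L.Nonempty → L ≠ K →
      ∃ p ∈ (posOf N Hv U).A, TDL.Meets (posOf N Hv U) p L ∧
        TDL.Meets (posOf N Hv U) p (K \ L) := by
    intro K hK hc L hL hne hneq
    by_contra hno
    push Not at hno
    apply hneq
    refine hc.2 L hne ⟨hL, fun v hv => ?_⟩
    have hLU : L ⊆ U := (hL.trans hK).trans hCU
    have hvA := hmemA v (by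
      obtain ⟨a, ha⟩ := hv
      rw [mem_inter] at ha
      exact ⟨a, mem_inter.2 ⟨ha.1, hK (hL ha.2)⟩⟩)
    have h1 := hno v hvA ((meets_pos hLU).2 hv)
    intro a ha
    by_contra haL
    apply h1
    rw [meets_pos (sdiff_subset.trans (hK.trans hCU))]
    rw [mem_inter] at ha
    exact ⟨a, mem_inter.2 ⟨ha.1, mem_sdiff.2 ⟨ha.2, haL⟩⟩⟩
  refine ⟨hC.1, ?_, ?_, ?_, ?_, ?_, ?_, ?_⟩
  · intro p hp hm
    rw [hinter]
    exact h.gr p ((hmc p).1 hm)
  · intro p hp p' hp' hm he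
    rw [hinter, hinter] at he
    exact (h.simple ((hmc p).1 hm) he.symm).symm
  · intro v L hL hne hneq
    by_cases hv : v ∈ C
    · have hc := h.conn_sdiff hN hv
      rw [sdiff_singleton_eq_erase] at hc
      exact hconn _ (erase_subset _ _) hc L hL hne hneq
    · rw [erase_eq_of_notMem hv] at hL hneq ⊢
      exact hconn C (Subset.refl _) h.conn L hL hne hneq
  · intro B hB h2
    rw [hEi B hB]
    exact h.sparse3 hN hB h2
  · intro B hB h3
    rw [hEi B hB]
    exact h.sparse4 hN hB h3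
  · rw [hE]
    have h1 := hC.2.1.2.2.1
    have h2 := hC.2.1.2.1.1
    unfold Phi at h1
    rw [disjoint_iff_inter_eq_empty.1 h2] at h1
    simpa using h1
  · intro u v w z p₁ hp₁ p₂ hp₂ p₃ hp₃ p₄ hp₄ hnd h1 h2 h3 h4
    rw [hinter] at h1 h2 h3 h4
    simp only [List.nodup_cons, List.mem_cons, List.not_mem_nil, or_false, not_or,
      List.nodup_nil, not_false_eq_true, and_true] at hnd
    obtain ⟨⟨huv, huw, huz⟩, ⟨hvw, hvz⟩, hwz⟩ := hnd
    have hmem : ∀ {p : V} {a b : X}, N p ∩ C = {a, b} → a ∈ C ∧ b ∈ C := by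
      intro p a b hh
      have ha : a ∈ N p ∩ C := by rw [hh]; simp
      have hb : b ∈ N p ∩ C := by rw [hh]; simp
      exact ⟨(mem_inter.1 ha).2, (mem_inter.1 hb).2⟩
    rw [hdeg u (hmem h1).1, hdeg v (hmem h1).2, hdeg w (hmem h3).1, hdeg z (hmem h3).2]
    have f1 := h.four h1 h2 h3 h4 huw huz hvw hvz hwz
    have f2 := h.four h2 h3 h4 h1 hvz (Ne.symm huv) hwz (Ne.symm huw) (Ne.symm huz)
    have f3 := h.four h3 h4 h1 h2 (Ne.symm huw) (Ne.symm hvw) (Ne.symm huz) (Ne.symm hvz) huv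
    have f4 := h.four h4 h1 h2 h3 (Ne.symm hvz) (Ne.symm hwz) huv huw hvw
    tauto

end Pool.Agent.TDG.BR
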