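import Pool.Agent.Helper34_TDL.Unc

/-!
# Last case, class 2: `κ = 1` and `κ = 3/2` are impossible
-/

set_option autoImplicit false

namespace Pool.Agent.TDL.H34

open Finset
open scoped Classical

variable {T P : Type} {X : Pos T P} {Bad : Finset T → Prop}

/-- A witness exists. -/
lemma exists_wit {x : P} (hx : x ∈ X.A) : ∃ Q, Wit X Bad x Q := by
  have hne : (X.U.powerset.filter fun Q => X.N x ⊆ Q).Nonempty :=
    ⟨X.U, by simp [X.sub x hx]⟩
  obtain ⟨Q, hQ, hmax⟩ := Finset.exists_max_image _ (fun Q => F X Bad Q) hne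
  rw [Finset.mem_filter, Finset.mem_powerset] at hQ
  exact ⟨Q, hQ.2, hQ.1, fun R h1 h2 => hmax R (Finset.mem_filter.2
    ⟨Finset.mem_powerset.2 h2, h1⟩)⟩

/-- The base block. -/
lemma block (hB : ∀ V, Bad V → Clu X V) {R Q V₀ : Finset T} {x : P} (hR : R ⊆ X.U)
    (hV₀ : V₀ ∈ S X Bad R) (hx : x ∈ X.A) (hm : Meets X x V₀) (hQ : Wit X Bad x Q) :
    V₀ ∈ H X Bad R Q ∧ 2 ≤ (V₀ ∩ Q).card ∧ X.N x \ V₀ ⊆ R ∧
    X.N x \ V₀ ⊆ Q \ hit X Bad R Q ∧ X.N x \ V₀ ⊆ R \ hit X Bad Q R ∧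
    (L X Bad R Q).card ≤ (H X Bad Q R).card ∧
    2 * ((H X Bad Q R).card : ℤ) + ((L X Bad R Q).card : ℤ) ≤
      ∑ V ∈ H X Bad Q R, cost X V R ∧
    2 * ((H X Bad R Q).card : ℤ) + 1 ≤ ∑ V ∈ H X Bad R Q, cost X V Q ∧
    F X Bad R - 2 * ((H X Bad R Q).card : ℤ) + ∑ V ∈ H X Bad Q R, cost X V R ≤
      F X Bad (R ∩ Q) ∧
    F X Bad Q - 2 * ((L X Bad R Q).card : ℤ) + ∑ V ∈ H X Bad R Q, cost X V Q ≤
      F X Bad (Q \ hit X Bad R Q) ∧
    F X Bad R - 2 * ((L X Bad Q R).card : ℤ) + ∑ V ∈ H X Bad Q R, cost X V R ≤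
      F X Bad (R \ hit X Bad Q R) ∧
    F X Bad R + F X Bad Q - 2 * ((H X Bad Q R).card : ℤ) + ∑ V ∈ H X Bad R Q, cost X V Q ≤
      F X Bad (R ∪ (Q \ hit X Bad R Q)) + F X Bad (R ∩ Q) := by
  have hC := hB V₀ (S_bad hV₀)
  have hsubVQ : X.N x ∩ V₀ ⊆ V₀ ∩ Q := by
    intro a ha
    rw [Finset.mem_inter] at ha ⊢
    exact ⟨ha.2, hQ.1 ha.1⟩
  have h2 : 2 ≤ (V₀ ∩ Q).card := by
    have := Finset.card_le_card hsubVQ
    rw [hC.two x hx hm] at this
    exact this
  have hVH : V₀ ∈ H X Bad R Q := by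
    rw [mem_H]
    refine ⟨hV₀, ?_⟩
    rw [Finset.not_disjoint_iff_nonempty_inter, ← Finset.card_pos]
    omega
  have hW : X.N x \ V₀ ⊆ R := by
    intro a ha
    rw [Finset.mem_sdiff] at ha
    rcases Finset.mem_union.1 (S_N hV₀ hx hm ha.1) with h | h
    · exact absurd h ha.2
    · exact h
  refine ⟨hVH, h2, hW, ?_, ?_, Finset.card_le_card (L_sub_H hB), sum_cost_ge hB R Q, ?_, ?_,
    rem_hit hB R Q, rem_hit hB Q R, uncross hB R Q⟩
  · intro a ha
    have haR := hW ha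
    rw [Finset.mem_sdiff] at ha ⊢
    exact ⟨hQ.1 ha.1, fun h => (Finset.disjoint_left.1 hit_disj) h haR⟩
  · intro a ha
    have haR := hW ha
    rw [Finset.mem_sdiff] at ha ⊢
    exact ⟨haR, fun h => (Finset.disjoint_left.1 hit_disj) h (hQ.1 ha.1)⟩
  · rw [← Finset.add_sum_erase _ _ hVH]
    have h3 := three_le_cost hC h2
    have h4 : ∑ V ∈ (H X Bad R Q).erase V₀, (2 : ℤ) ≤
        ∑ V ∈ (H X Bad R Q).erase V₀, cost X V Q := by
      apply Finset.sum_le_sum
      intro V hV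
      have hV' := mem_H.1 (Finset.mem_of_mem_erase hV)
      exact two_le_cost (hB V (S_bad hV'.1)) hV'.2
    rw [Finset.sum_const, Finset.card_erase_of_mem hVH] at h4
    have h5 : 1 ≤ (H X Bad R Q).card := Finset.card_pos.2 ⟨_, hVH⟩
    simp only [nsmul_eq_mul] at h4
    push_cast [Nat.cast_sub h5] at h4
    linarith
  · have h1 := uncross hB Q R
    have hQsub : X.N x ⊆ Q ∪ (R \ hit X Bad Q R) := hQ.1.trans Finset.subset_union_left
    have hU : Q ∪ (R \ hit X Bad Q R) ⊆ X.U :=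
      Finset.union_subset hQ.2.1 (Finset.sdiff_subset.trans hR)
    have h3 := hQ.2.2 _ hQsub hU
    rw [Finset.inter_comm Q R] at h1
    linarith

lemma F_eq (R : Finset T) : F X Bad R = 2 * ((S X Bad R).card : ℤ) - ph X R := by
  unfold F ph
  ring

/-- No pendant players. -/
lemma two_le_a (hX : NG3 X Bad) {x : P} (hx : x ∈ X.A) : 2 ≤ (X.N x).card := by
  by_contra hlt
  have hpos := Finset.card_pos.2 (X.ne x hx)
  have h1 : (X.N x).card = 1 := by omega
  have h2 := hX.g0 (X.N x) (X.sub x hx) (X.ne x hx)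
  have h3 : 1 ≤ (J X (X.N x)).card := Finset.card_pos.2 ⟨x, mem_J'.2 ⟨hx, Subset.refl _⟩⟩
  unfold F at h2
  rw [h1] at h2
  omega

/-- `φ ≤ 1` only for single targets. -/
lemma single_of_ph (hX : NG3 X Bad) {R : Finset T} (hR : R ⊆ X.U) (hne : R.Nonempty)
    (h : ph X R ≤ 2) : R.card = 1 := by
  have hJ : J X R = ∅ := by
    rw [Finset.eq_empty_iff_forall_notMem]
    intro p hp
    rw [mem_J'] at hp
    have h1 := hX.g4 p hp.1 R hR hp.2
    have h2 := two_le_a hX hp.1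
    omega
  have hpos := Finset.card_pos.2 hne
  unfold ph at h
  rw [hJ] at h
  simp only [card_empty] at h
  omega

lemma exists_tok (hB : ∀ V, Bad V → Clu X V) (hX : NG3 X Bad) {R V : Finset T}
    (hV : V ∈ S X Bad R) : ∃ x ∈ X.A, Meets X x V ∧ (X.N x \ V).Nonempty := by
  have hne : V.Nonempty := by
    rw [← Finset.card_pos]
    have := clu_card3 (hB V (S_bad hV))
    omega
  have hneq : V ≠ X.U := fun h => hX.notbad (h ▸ S_bad hV)
  obtain ⟨p, hp, hm, hm'⟩ := hX.conn V (S_sub hV) hne hneq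
  refine ⟨p, hp, hm, ?_⟩
  obtain ⟨a, ha, ha'⟩ := meets_iff.1 hm'
  exact ⟨a, Finset.mem_sdiff.2 ⟨ha, (Finset.mem_sdiff.1 ha').2⟩⟩

/-- The structure at a tokened edge, `κ = 3/2`. -/
structure Dat (X : Pos T P) (Bad : Finset T → Prop) (R V₀ : Finset T) (y x : P) (w : T)
    (V' Q : Finset T) : Prop where
  xA : x ∈ X.A
  xm : Meets X x V₀
  wR : w ∈ R
  xw : X.N x ∩ R = {w}
  xQ : X.N x ⊆ Q
  V'S : V' ∈ S X Bad Q
  V'R : V' ∩ R = R.erase w
  th : Q \ V₀ = {w} ∨ V₀ ∩ Q = X.N x ∩ V₀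
  Jy : J X R = {y}
  R3 : R.card = 3
  yw : R.erase w ⊆ X.N y
  adj : V' ∈ L X Bad R Q
  hitE : hit X Bad R Q = V₀ ∩ Q

lemma struct (hB : ∀ V, Bad V → Clu X V) (hX : NG3 X Bad)
    (hcl : ∀ R, R ⊆ X.U → (S X Bad R).Nonempty → F X Bad R ≤ -3)
    {R V₀ : Finset T} (hR : R ⊆ X.U) (hV₀ : V₀ ∈ S X Bad R) (hF : F X Bad R = -3)
    {x : P} (hx : x ∈ X.A) (hm : Meets X x V₀) (hW : (X.N x \ V₀).Nonempty) :
    ∃ y w V' Q, Dat X Bad R V₀ y x w V' Q := by
  obtain ⟨Q, hQ⟩ := exists_wit (Bad := Bad) hx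
  obtain ⟨b1, b2, b3, b4, b5, b6, b7, b8, b9, b10, b11, b12⟩ := block hB hR hV₀ hx hm hQ
  have hQU := hQ.2.1
  have g1 := hX.g1 x hx Q hQ
  have hne1 : (R ∩ Q).Nonempty := by
    obtain ⟨a, ha⟩ := hW
    exact ⟨a, Finset.mem_inter.2 ⟨b3 ha, hQ.1 (Finset.mem_sdiff.1 ha).1⟩⟩
  have f1 := hX.g0 (R ∩ Q) (Finset.inter_subset_left.trans hR) hne1
  have f2 := hX.g0 (Q \ hit X Bad R Q) (Finset.sdiff_subset.trans hQU) (hW.mono b4)
  have f3 := hX.g0 (R \ hit X Bad Q R) (Finset.sdiff_subset.trans hR) (hW.mono b5)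
  have h1pos : 1 ≤ (H X Bad R Q).card := Finset.card_pos.2 ⟨_, b1⟩
  -- the numbers
  have hl2 : (L X Bad R Q).card = 1 := by omega
  have hh1 : (H X Bad R Q).card = 1 := by omega
  have hh2 : (H X Bad Q R).card = 1 := by omega
  have hc2 : ∑ V ∈ H X Bad Q R, cost X V R = 3 := by omega
  obtain ⟨V', hV'⟩ := Finset.card_eq_one.1 hh2
  have hH1 : H X Bad R Q = {V₀} := by
    obtain ⟨V, hV⟩ := Finset.card_eq_one.1 hh1
    rw [hV] at b1 ⊢
    rw [Finset.mem_singleton.1 b1]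
  have hL : L X Bad R Q = {V'} := by
    obtain ⟨V, hV⟩ := Finset.card_eq_one.1 hl2
    have hsub := L_sub_H hB (R := R) (Q := Q)
    rw [hV, hV', Finset.singleton_subset_iff, Finset.mem_singleton] at hsub
    rw [hV, hsub]
  have hadj : V' ∈ L X Bad R Q := by rw [hL]; simp
  have hV'S : V' ∈ S X Bad Q := (mem_L.1 hadj).1
  rw [hV', Finset.sum_singleton] at hc2
  have hhit1 : hit X Bad R Q = V₀ ∩ Q := by
    unfold hit
    rw [hH1, Finset.singleton_biUnion]
  have hhit2 : hit X Bad Q R = V' ∩ R := by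
    unfold hit
    rw [hV', Finset.singleton_biUnion]
  have hC' := hB V' (S_bad hV'S)
  have hC₀ := hB V₀ (S_bad hV₀)
  have h2 : 2 ≤ (V' ∩ R).card := by
    by_contra hlt
    exact single_not_adj hB hV'S (by omega) hadj
  obtain ⟨hcard, y, hyA, hyR, hyV, hyu⟩ := cost_three hC' h2 (by omega)
  -- L Q R
  have hLQ : L X Bad Q R ⊆ {V₀} := by
    have := L_sub_H hB (R := Q) (Q := R)
    rw [hH1] at this
    exact this
  have hLQc := Finset.card_le_card hLQ
  rw [Finset.card_singleton] at hLQc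
  have hl1 : (L X Bad Q R).card = 1 := by
    rw [hV', Finset.sum_singleton] at b11
    omega
  have hR1F : F X Bad (R \ hit X Bad Q R) = -2 := by
    rw [hV', Finset.sum_singleton] at b11
    omega
  have hR1S : S X Bad (R \ hit X Bad Q R) = ∅ := by
    by_contra hne
    have := hcl _ (Finset.sdiff_subset.trans hR) (Finset.nonempty_iff_ne_empty.2 hne)
    omega
  have hSR : S X Bad R = {V₀} := by
    rw [Finset.eq_singleton_iff_unique_mem]
    refine ⟨hV₀, fun V hV => ?_⟩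
    by_contra hne
    have hVL : V ∉ L X Bad Q R := fun h => hne (Finset.mem_singleton.1 (hLQ h))
    have := S_sdiff_hit hV hVL
    rw [hR1S] at this
    simp at this
  have hR1c : (R \ hit X Bad Q R).card = 1 := by
    apply single_of_ph hX (Finset.sdiff_subset.trans hR) (hW.mono b5)
    rw [F_eq, hR1S] at hR1F
    simp only [card_empty] at hR1F
    omega
  obtain ⟨w, hw⟩ := Finset.card_eq_one.1 hR1c
  have hRc : R.card = 3 := by
    have := Finset.card_sdiff_add_card_eq_card (hit_sub (X := X) (Bad := Bad) (R := Q) (Q := R))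
    rw [hR1c, hhit2, hcard] at this
    exact this.symm
  have hJc : (J X R).card = 1 := by
    unfold F at hF
    rw [hSR, hRc] at hF
    simp only [card_singleton] at hF
    omega
  have hyJ : y ∈ J X R := mem_J'.2 ⟨hyA, hyR⟩
  have hJ : J X R = {y} := by
    obtain ⟨z, hz⟩ := Finset.card_eq_one.1 hJc
    rw [hz] at hyJ ⊢
    rw [Finset.mem_singleton.1 hyJ]
  have hwm : w ∈ R ∧ w ∉ V' := by
    have : w ∈ R \ hit X Bad Q R := by rw [hw]; simp
    rw [hhit2, Finset.mem_sdiff, Finset.mem_inter, not_and] at this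
    exact ⟨this.1, fun h => this.2 h this.1⟩
  have hVR : V' ∩ R = R.erase w := by
    ext a
    rw [Finset.mem_inter, Finset.mem_erase]
    constructor
    · rintro ⟨h1, h2⟩
      exact ⟨fun h => hwm.2 (h ▸ h1), h2⟩
    · rintro ⟨h1, h2⟩
      refine ⟨?_, h2⟩
      by_contra hn
      have : a ∈ R \ hit X Bad Q R := by
        rw [hhit2, Finset.mem_sdiff, Finset.mem_inter]
        exact ⟨h2, fun h => hn h.1⟩
      rw [hw, Finset.mem_singleton] at this
      exact h1 this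
  have hWw : X.N x \ V₀ = {w} := by
    have : X.N x \ V₀ ⊆ {w} := by rw [← hw]; exact b5
    exact (Finset.subset_singleton_iff.1 this).resolve_left
      (Finset.nonempty_iff_ne_empty.1 hW)
  have hxw : X.N x ∩ R = {w} := by
    rw [← hWw]
    ext a
    rw [Finset.mem_inter, Finset.mem_sdiff]
    constructor
    · rintro ⟨h1, h2⟩
      exact ⟨h1, fun h => (Finset.disjoint_left.1 (S_disj hV₀)) h h2⟩
    · rintro ⟨h1, h2⟩
      exact ⟨h1, b3 (Finset.mem_sdiff.2 ⟨h1, h2⟩)⟩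
  refine ⟨y, w, V', Q, hx, hm, hwm.1, hxw, hQ.1, hV'S, hVR, ?_, hJ, hRc, ?_, hadj, hhit1⟩
  · -- thin or fat
    rw [hH1, Finset.sum_singleton] at b10
    rcases le_or_gt (cost X V₀ Q) 3 with hc | hc
    · right
      obtain ⟨h2', -⟩ := cost_three hC₀ b2 hc
      symm
      apply Finset.eq_of_subset_of_card_le
      · intro a ha
        rw [Finset.mem_inter] at ha ⊢
        exact ⟨ha.2, hQ.1 ha.1⟩
      · rw [h2', hC₀.two x hx hm]
    · left
      have hFQ : F X Bad (Q \ hit X Bad R Q) = -2 := by omega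
      have hSe : S X Bad (Q \ hit X Bad R Q) = ∅ := by
        by_contra hne
        have := hcl _ (Finset.sdiff_subset.trans hQU) (Finset.nonempty_iff_ne_empty.2 hne)
        omega
      have hc1 : (Q \ hit X Bad R Q).card = 1 := by
        apply single_of_ph hX (Finset.sdiff_subset.trans hQU) (hW.mono b4)
        rw [F_eq, hSe] at hFQ
        simp only [card_empty] at hFQ
        omega
      have h3 : Q \ V₀ = Q \ hit X Bad R Q := by
        rw [hhit1]
        ext a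
        simp only [mem_sdiff, mem_inter]
        tauto
      rw [h3]
      obtain ⟨z, hz⟩ := Finset.card_eq_one.1 hc1
      rw [hz]
      have : w ∈ Q \ hit X Bad R Q := b4 (by rw [hWw]; simp)
      rw [hz, Finset.mem_singleton] at this
      rw [this]
  · intro a ha
    rw [← hVR, ← hyV] at ha
    exact (Finset.mem_inter.1 ha).1

/-! ### consequences -/

section Core

variable {R V₀ : Finset T} {y : P}

/-- All tokens of `V₀` for one structure. -/
lemma Dat.toks (hB : ∀ V, Bad V → Clu X V) (hV₀ : V₀ ∈ S X Bad R) {x : P} {w : T}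
    {V' Q : Finset T} (h : Dat X Bad R V₀ y x w V' Q) :
    (V₀ ∩ V').Nonempty ∧ ∀ t ∈ R, t ≠ w → ∃ r ∈ X.A, Meets X r V₀ ∧ t ∈ X.N r := by
  have hC' := hB V' (S_bad h.V'S)
  have hC₀ := hB V₀ (S_bad hV₀)
  have hyJ : y ∈ J X R := by rw [h.Jy]; simp
  have hyA := (mem_J'.1 hyJ).1
  have hyR := (mem_J'.1 hyJ).2
  obtain ⟨-, p, hp, hpm, hph⟩ := mem_L.1 h.adj
  rw [h.hitE] at hph
  obtain ⟨d, hdN, hd⟩ := meets_iff.1 hph
  rw [Finset.mem_inter] at hd
  have hpm0 : Meets X p V₀ := meets_of hdN hd.1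
  have hdV' : d ∉ V' := fun hh => (Finset.disjoint_left.1 (S_disj h.V'S)) hh hd.2
  -- an element of N p ∩ V' outside R
  obtain ⟨i, hiN, hiV', hiR⟩ : ∃ i ∈ X.N p, i ∈ V' ∧ i ∉ R := by
    by_contra hno
    push Not at hno
    have hsub : X.N p ∩ V' ⊆ V' ∩ R := by
      intro a ha
      rw [Finset.mem_inter] at ha ⊢
      exact ⟨ha.2, hno a ha.1 ha.2⟩
    have hcard : (V' ∩ R).card = 2 := by
      rw [h.V'R, Finset.card_erase_of_mem h.wR, h.R3]
    have heq : X.N p ∩ V' = V' ∩ R := by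
      apply Finset.eq_of_subset_of_card_le hsub
      rw [hcard, hC'.two p hp hpm]
    have hyV : X.N y ∩ V' = V' ∩ R := by
      apply Finset.Subset.antisymm
      · intro a ha
        rw [Finset.mem_inter] at ha ⊢
        exact ⟨ha.2, hyR ha.1⟩
      · intro a ha
        have ha' := Finset.mem_inter.1 ha
        rw [h.V'R] at ha
        exact Finset.mem_inter.2 ⟨h.yw ha, ha'.1⟩
    have hpy : p = y := hC'.simp p hp y hyA hpm (heq.trans hyV.symm)
    rw [hpy] at hdN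
    exact (Finset.disjoint_left.1 (S_disj hV₀)) hd.1 (hyR hdN)
  have hiV₀ : i ∈ V₀ := (S_mem hV₀ hp hpm0 hiN).2 hiR
  have hne : (V₀ ∩ V').Nonempty := ⟨i, Finset.mem_inter.2 ⟨hiV₀, hiV'⟩⟩
  refine ⟨hne, ?_⟩
  intro t htR htw
  -- the other token
  have hcard : (R.erase w).card = 2 := by rw [Finset.card_erase_of_mem h.wR, h.R3]
  obtain ⟨s, hs, hst⟩ := Finset.exists_mem_ne (by omega : 1 < (R.erase w).card) t
  have hsV : s ∈ V' ∩ R := by rw [h.V'R]; exact hs
  have htV : t ∈ V' ∩ R := by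
    rw [h.V'R]
    exact Finset.mem_erase.2 ⟨htw, htR⟩
  rw [Finset.mem_inter] at hsV htV
  have hRV₀ : ∀ a ∈ R, a ∉ V₀ := fun a ha h' => (Finset.disjoint_left.1 (S_disj hV₀)) h' ha
  have hLsub : V₀ ∩ V' ⊆ V'.erase s := by
    intro a ha
    rw [Finset.mem_inter] at ha
    exact Finset.mem_erase.2 ⟨fun hh => hRV₀ s hsV.2 (hh ▸ ha.1), ha.2⟩
  have hLne : V₀ ∩ V' ≠ V'.erase s := by
    intro hh
    have : t ∈ V'.erase s := Finset.mem_erase.2 ⟨fun hh => hst hh.symm, htV.1⟩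
    rw [← hh, Finset.mem_inter] at this
    exact hRV₀ t htR this.1
  obtain ⟨r, hr, hr1, hr2⟩ := hC'.conn s _ hLsub hne hLne
  have hrm : Meets X r V₀ := mmono hr1 Finset.inter_subset_left
  obtain ⟨b, hb, hb'⟩ := meets_iff.1 hr2
  rw [Finset.mem_sdiff, Finset.mem_erase, Finset.mem_inter, not_and'] at hb'
  have hbR : b ∈ R := by
    by_contra hn
    exact hb'.2 hb'.1.2 ((S_mem hV₀ hr hrm hb).2 hn)
  have hbe : b ∈ R.erase w := by
    rw [← h.V'R]
    exact Finset.mem_inter.2 ⟨hb'.1.2, hbR⟩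
  refine ⟨r, hr, hrm, ?_⟩
  have hbt : b = t := by
    by_contra hbt
    have h3 : ({b, t, s} : Finset T) ⊆ R.erase w := by
      intro a ha
      simp only [mem_insert, mem_singleton] at ha
      rcases ha with rfl | rfl | rfl
      · exact hbe
      · exact Finset.mem_erase.2 ⟨htw, htR⟩
      · exact hs
    have h4 := Finset.card_le_card h3
    rw [hcard, Finset.card_insert_of_notMem, Finset.card_insert_of_notMem,
      Finset.card_singleton] at h4
    · omega
    · simp only [mem_singleton]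
      exact fun hh => hst hh.symm
    · simp only [mem_insert, mem_singleton, not_or]
      exact ⟨hbt, hb'.1.1⟩
  rw [← hbt]
  exact hb

/-- CUT, first half. -/
lemma Dat.cutA (hB : ∀ V, Bad V → Clu X V) (hV₀ : V₀ ∈ S X Bad R)
    (hone : ∀ g ∈ X.A, Meets X g V₀ → ∀ t ∈ X.N g, t ∈ R → ∀ t' ∈ X.N g, t' ∈ R → t = t')
    {x : P} {w : T} {V' Q : Finset T} (h : Dat X Bad R V₀ y x w V' Q) {g : P} (hg : g ∈ X.A)
    (hgm : Meets X g V₀) {t : T} (ht : t ∈ X.N g) (htR : t ∈ R) (htw : t ≠ w) :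
    ∃ i d, i ≠ d ∧ X.N g ∩ V₀ = {i, d} ∧ i ∈ V' ∧ d ∈ Q ∧ d ∉ V' := by
  have hC' := hB V' (S_bad h.V'S)
  have hC₀ := hB V₀ (S_bad hV₀)
  have htV : t ∈ V' := by
    have : t ∈ V' ∩ R := by
      rw [h.V'R]
      exact Finset.mem_erase.2 ⟨htw, htR⟩
    exact (Finset.mem_inter.1 this).1
  have hgm' : Meets X g V' := meets_of ht htV
  have h2 := hC'.two g hg hgm'
  obtain ⟨i, hi, hit⟩ := Finset.exists_mem_ne (by omega : 1 < (X.N g ∩ V').card) t
  rw [Finset.mem_inter] at hi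
  have hiV₀ : i ∈ V₀ := (S_mem hV₀ hg hgm hi.1).2 fun hh => hit (hone g hg hgm i hi.1 hh t ht htR)
  have h2' := hC₀.two g hg hgm
  obtain ⟨d, hd, hdi⟩ := Finset.exists_mem_ne (by omega : 1 < (X.N g ∩ V₀).card) i
  rw [Finset.mem_inter] at hd
  have htV₀ : t ∉ V₀ := fun h' => (Finset.disjoint_left.1 (S_disj hV₀)) h' htR
  have hdV' : d ∉ V' := by
    intro hh
    have h3 : ({d, i, t} : Finset T) ⊆ X.N g ∩ V' := by
      intro a ha
      simp only [mem_insert, mem_singleton] at ha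
      rw [Finset.mem_inter]
      rcases ha with rfl | rfl | rfl
      · exact ⟨hd.1, hh⟩
      · exact hi
      · exact ⟨ht, htV⟩
    have h4 := Finset.card_le_card h3
    rw [h2, Finset.card_insert_of_notMem, Finset.card_insert_of_notMem,
      Finset.card_singleton] at h4
    · omega
    · simp only [mem_singleton]
      exact hit
    · simp only [mem_insert, mem_singleton, not_or]
      exact ⟨hdi, fun hh => htV₀ (hh ▸ hd.2)⟩
  refine ⟨i, d, fun hh => hdi hh.symm, ?_, hi.2, ?_, hdV'⟩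
  · symm
    apply Finset.eq_of_subset_of_card_le
    · intro a ha
      simp only [mem_insert, mem_singleton] at ha
      rw [Finset.mem_inter]
      rcases ha with rfl | rfl
      · exact ⟨hi.1, hiV₀⟩
      · exact hd
    · rw [h2', Finset.card_insert_of_notMem, Finset.card_singleton]
      simp only [mem_singleton]
      exact fun hh => hdi hh.symm
  · rcases Finset.mem_union.1 (S_N h.V'S hg hgm' hd.1) with hh | hh
    · exact absurd hh hdV'
    · exact hh

/-- CUT, second half. -/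
lemma Dat.cutB (hB : ∀ V, Bad V → Clu X V) (hV₀ : V₀ ∈ S X Bad R)
    {x : P} {w : T} {V' Q : Finset T} (h : Dat X Bad R V₀ y x w V' Q) {g : P} (hg : g ∈ X.A)
    {i d : T} (hi : i ∈ X.N g) (hiV₀ : i ∈ V₀) (hiV' : i ∈ V') (hd : d ∈ X.N g)
    (hdV₀ : d ∈ V₀) (hdV' : d ∉ V') : d ∈ Q ∧ ∃ t ∈ X.N g, t ∈ R ∧ t ≠ w := by
  have hC' := hB V' (S_bad h.V'S)
  have hC₀ := hB V₀ (S_bad hV₀)
  have hgm : Meets X g V₀ := meets_of hi hiV₀
  have hgm' : Meets X g V' := meets_of hi hiV'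
  have h2 := hC'.two g hg hgm'
  have h2' := hC₀.two g hg hgm
  have hdi : d ≠ i := fun hh => hdV' (hh ▸ hiV')
  obtain ⟨c, hc, hci⟩ := Finset.exists_mem_ne (by omega : 1 < (X.N g ∩ V').card) i
  rw [Finset.mem_inter] at hc
  refine ⟨?_, c, hc.1, ?_⟩
  · rcases Finset.mem_union.1 (S_N h.V'S hg hgm' hd) with hh | hh
    · exact absurd hh hdV'
    · exact hh
  have hcV₀ : c ∉ V₀ := by
    intro hh
    have h3 : ({c, i, d} : Finset T) ⊆ X.N g ∩ V₀ := by
      intro a ha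
      simp only [mem_insert, mem_singleton] at ha
      rw [Finset.mem_inter]
      rcases ha with rfl | rfl | rfl
      · exact ⟨hc.1, hh⟩
      · exact ⟨hi, hiV₀⟩
      · exact ⟨hd, hdV₀⟩
    have h4 := Finset.card_le_card h3
    rw [h2', Finset.card_insert_of_notMem, Finset.card_insert_of_notMem,
      Finset.card_singleton] at h4
    · omega
    · simp only [mem_singleton]
      exact fun hh => hdi hh.symm
    · simp only [mem_insert, mem_singleton, not_or]
      exact ⟨hci, fun hh => hdV' (hh ▸ hc.2)⟩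
  have hcR : c ∈ R := by
    by_contra hn
    exact hcV₀ ((S_mem hV₀ hg hgm hc.1).2 hn)
  have : c ∈ R.erase w := by
    rw [← h.V'R]
    exact Finset.mem_inter.2 ⟨hc.2, hcR⟩
  exact ⟨hcR, (Finset.mem_erase.1 this).1⟩

end Core

end Pool.Agent.TDL.H34
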