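import Pool.Agent.Helper34_TDL.Kap1

/-!
# Last case, class 2: `κ = 1` and `κ = 3/2` are impossible, end of the proof
-/

set_option autoImplicit false

namespace Pool.Agent.TDL.H34

open Finset
open scoped Classical

variable {T P : Type} {X : Pos T P} {Bad : Finset T → Prop}

/-- All facts about a closer of level 3/2. -/
structure Lev (X : Pos T P) (Bad : Finset T → Prop) (R V₀ : Finset T) (y : P) : Prop where
  R3 : R.card = 3
  hV : V₀ ∈ S X Bad R
  yA : y ∈ X.A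
  yR : X.N y = R
  Jy : J X R = {y}
  one : ∀ g ∈ X.A, Meets X g V₀ → ∀ t ∈ X.N g, t ∈ R → ∀ t' ∈ X.N g, t' ∈ R → t = t'
  two : ∀ p ∈ X.A, ∀ t ∈ X.N p, ∀ t' ∈ X.N p, t ∈ R → t' ∈ R → t ≠ t' → p = y
  dat : ∀ g ∈ X.A, Meets X g V₀ → ∀ t ∈ X.N g, t ∈ R → ∃ V' Q, Dat X Bad R V₀ y g t V' Q
  ex : ∀ t ∈ R, ∃ g ∈ X.A, Meets X g V₀ ∧ t ∈ X.N g

lemma lev (hB : ∀ V, Bad V → Clu X V) (hX : NG3 X Bad)
    (hcl : ∀ R, R ⊆ X.U → (S X Bad R).Nonempty → F X Bad R ≤ -3)
    {R V₀ : Finset T} (hR : R ⊆ X.U) (hV₀ : V₀ ∈ S X Bad R) (hF : F X Bad R = -3) :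
    ∃ y, Lev X Bad R V₀ y := by
  obtain ⟨x, hx, hm, hW⟩ := exists_tok hB hX hV₀
  obtain ⟨y, w, V', Q, h⟩ := struct hB hX hcl hR hV₀ hF hx hm hW
  have hyJ : y ∈ J X R := by rw [h.Jy]; simp
  have hyA := (mem_J'.1 hyJ).1
  have hyR := (mem_J'.1 hyJ).2
  have hRV₀ : ∀ a ∈ R, a ∉ V₀ := fun a ha h' => (Finset.disjoint_left.1 (S_disj hV₀)) h' ha
  have hall : ∀ g ∈ X.A, Meets X g V₀ → ∀ t ∈ X.N g, t ∈ R →
      ∃ V' Q, Dat X Bad R V₀ y g t V' Q := by
    intro g hg hgm t ht htR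
    obtain ⟨y', w', V₁, Q₁, h'⟩ := struct hB hX hcl hR hV₀ hF hg hgm
      ⟨t, Finset.mem_sdiff.2 ⟨ht, hRV₀ t htR⟩⟩
    have hy : y' = y := by
      have := h'.Jy
      rw [h.Jy, Finset.singleton_inj] at this
      exact this.symm
    have hw : t = w' := by
      have : t ∈ X.N g ∩ R := Finset.mem_inter.2 ⟨ht, htR⟩
      rw [h'.xw, Finset.mem_singleton] at this
      exact this
    subst hy hw
    exact ⟨V₁, Q₁, h'⟩
  have hone : ∀ g ∈ X.A, Meets X g V₀ → ∀ t ∈ X.N g, t ∈ R → ∀ t' ∈ X.N g, t' ∈ R →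
      t = t' := by
    intro g hg hgm t ht htR t' ht' htR'
    obtain ⟨V₁, Q₁, h'⟩ := hall g hg hgm t ht htR
    have : t' ∈ X.N g ∩ R := Finset.mem_inter.2 ⟨ht', htR'⟩
    rw [h'.xw, Finset.mem_singleton] at this
    exact this.symm
  have hex : ∀ t ∈ R, ∃ g ∈ X.A, Meets X g V₀ ∧ t ∈ X.N g := by
    intro t htR
    by_cases htw : t = w
    · refine ⟨x, hx, hm, ?_⟩
      have : w ∈ X.N x ∩ R := by rw [h.xw]; simp
      rw [htw]
      exact (Finset.mem_inter.1 this).1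
    · exact (h.toks hB hV₀).2 t htR htw
  have hyN : X.N y = R := by
    apply Finset.Subset.antisymm hyR
    intro a ha
    -- another token
    obtain ⟨b, hb, hba⟩ := Finset.exists_mem_ne (by rw [h.R3]; omega : 1 < R.card) a
    obtain ⟨g, hg, hgm, hgt⟩ := hex b hb
    obtain ⟨V₁, Q₁, h'⟩ := hall g hg hgm b hgt hb
    exact h'.yw (Finset.mem_erase.2 ⟨fun hh => hba hh.symm, ha⟩)
  refine ⟨y, h.R3, hV₀, hyA, hyN, h.Jy, hone, ?_, hall, hex⟩
  intro p hp t ht t' ht' htR htR' hne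
  -- the third element
  obtain ⟨s, hs, hst⟩ : ∃ s ∈ R, s ∉ ({t, t'} : Finset T) := by
    by_contra hno
    push Not at hno
    have h1 := Finset.card_le_card (show R ⊆ {t, t'} from hno)
    rw [h.R3] at h1
    have := Finset.card_le_two (a := t) (b := t')
    omega
  simp only [mem_insert, mem_singleton, not_or] at hst
  obtain ⟨g, hg, hgm, hgt⟩ := hex s hs
  obtain ⟨V₁, Q₁, h'⟩ := hall g hg hgm s hgt hs
  have hC₁ := hB V₁ (S_bad h'.V'S)
  have htV : ∀ a ∈ R, a ≠ s → a ∈ V₁ := by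
    intro a ha has
    have : a ∈ V₁ ∩ R := by
      rw [h'.V'R]
      exact Finset.mem_erase.2 ⟨has, ha⟩
    exact (Finset.mem_inter.1 this).1
  have htV1 := htV t htR (fun hh => hst.1 hh.symm)
  have htV2 := htV t' htR' (fun hh => hst.2 hh.symm)
  have hpm : Meets X p V₁ := meets_of ht htV1
  have hym : Meets X y V₁ := meets_of (by rw [hyN]; exact htR) htV1
  have hpp : ∀ q ∈ X.A, Meets X q V₁ → t ∈ X.N q → t' ∈ X.N q → X.N q ∩ V₁ = {t, t'} := by
    intro q hq hqm h1 h2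
    symm
    apply Finset.eq_of_subset_of_card_le
    · intro a ha
      simp only [mem_insert, mem_singleton] at ha
      rw [Finset.mem_inter]
      rcases ha with rfl | rfl
      · exact ⟨h1, htV1⟩
      · exact ⟨h2, htV2⟩
    · rw [hC₁.two q hq hqm, Finset.card_pair hne]
  refine hC₁.simp p hp y hyA hpm ?_
  rw [hpp p hp hpm ht ht', hpp y hyA hym (by rw [hyN]; exact htR) (by rw [hyN]; exact htR')]

/-! ### 7.4 -/

section Thin

variable {R V₀ : Finset T} {y : P}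

lemma third (h3 : R.card = 3) {a b : T} (ha : a ∈ R) (hb : b ∈ R) (hab : a ≠ b) :
    ∃ c ∈ R, c ≠ a ∧ c ≠ b ∧ ∀ t ∈ R, t = a ∨ t = b ∨ t = c := by
  obtain ⟨c, hc, hcn⟩ : ∃ c ∈ R, c ∉ ({a, b} : Finset T) := by
    by_contra hno
    push Not at hno
    have h1 := Finset.card_le_card (show R ⊆ {a, b} from hno)
    have := Finset.card_le_two (a := a) (b := b)
    omega
  simp only [mem_insert, mem_singleton, not_or] at hcn
  refine ⟨c, hc, hcn.1, hcn.2, ?_⟩
  have hcard : ({a, b, c} : Finset T).card = 3 := by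
    rw [Finset.card_insert_of_notMem, Finset.card_pair (fun hh => hcn.2 hh.symm)]
    simp only [mem_insert, mem_singleton, not_or]
    exact ⟨hab, fun hh => hcn.1 hh.symm⟩
  have hsub : ({a, b, c} : Finset T) ⊆ R := by
    intro t ht
    simp only [mem_insert, mem_singleton] at ht
    rcases ht with rfl | rfl | rfl <;> assumption
  have heq : ({a, b, c} : Finset T) = R := Finset.eq_of_subset_of_card_le hsub (by omega)
  intro t ht
  rw [← heq] at ht
  simpa using ht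

lemma thin1 (hB : ∀ V, Bad V → Clu X V) (hl : Lev X Bad R V₀ y) {x x' : P} {t₁ t₂ : T}
    {V' Q V'' Q' : Finset T} (h : Dat X Bad R V₀ y x t₁ V' Q)
    (h' : Dat X Bad R V₀ y x' t₂ V'' Q') (hne : t₁ ≠ t₂) (ht : Q \ V₀ = {t₁})
    (ht' : Q' \ V₀ = {t₂}) : ∀ o ∈ V', o ∉ V₀ → o ∈ R := by
  obtain ⟨t₃, h3R, h31, h32, hall⟩ := third hl.R3 h.wR h'.wR hne
  have hC' := hB V' (S_bad h.V'S)
  have hC'' := hB V'' (S_bad h'.V'S)
  have hV₀ := hl.hV
  have hQ : ∀ c, c ∈ Q → c ∉ V₀ → c = t₁ := by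
    intro c hc hcV
    have : c ∈ Q \ V₀ := Finset.mem_sdiff.2 ⟨hc, hcV⟩
    rw [ht, Finset.mem_singleton] at this
    exact this
  have hQ' : ∀ c, c ∈ Q' → c ∉ V₀ → c = t₂ := by
    intro c hc hcV
    have : c ∈ Q' \ V₀ := Finset.mem_sdiff.2 ⟨hc, hcV⟩
    rw [ht', Finset.mem_singleton] at this
    exact this
  have hVR : ∀ a, a ∈ V' → a ∈ R → a ≠ t₁ := by
    intro a ha haR
    have : a ∈ V' ∩ R := Finset.mem_inter.2 ⟨ha, haR⟩
    rw [h.V'R] at this
    exact (Finset.mem_erase.1 this).1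
  have hVR' : ∀ a ∈ R, a ≠ t₁ → a ∈ V' := by
    intro a ha hat
    have : a ∈ V' ∩ R := by
      rw [h.V'R]
      exact Finset.mem_erase.2 ⟨hat, ha⟩
    exact (Finset.mem_inter.1 this).1
  have hVR2 : ∀ a, a ∈ V'' → a ∈ R → a ≠ t₂ := by
    intro a ha haR
    have : a ∈ V'' ∩ R := Finset.mem_inter.2 ⟨ha, haR⟩
    rw [h'.V'R] at this
    exact (Finset.mem_erase.1 this).1
  have hVR2' : ∀ a ∈ R, a ≠ t₂ → a ∈ V'' := by
    intro a ha hat
    have : a ∈ V'' ∩ R := by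
      rw [h'.V'R]
      exact Finset.mem_erase.2 ⟨hat, ha⟩
    exact (Finset.mem_inter.1 this).1
  have hnm : ∀ p ∈ X.A, ∀ o ∈ X.N p, o ∉ V₀ → o ∉ R → ∀ c ∈ X.N p, c ∉ V₀ := by
    intro p hp o ho hoV hoR c hc hcV
    rcases Finset.mem_union.1 (S_N hV₀ hp (meets_of hc hcV) ho) with hh | hh
    · exact hoV hh
    · exact hoR hh
  -- the intersection
  have hM : ∀ m, m ∈ V' → m ∈ V'' → m ∉ V₀ → m ∉ R → False := by
    intro m hm hm' hmV hmR
    have hLsub : (V' ∩ V'') \ (V₀ ∪ R) ⊆ V'.erase t₃ := by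
      intro a ha
      rw [Finset.mem_sdiff, Finset.mem_inter, Finset.mem_union, not_or] at ha
      exact Finset.mem_erase.2 ⟨fun hh => ha.2.2 (hh ▸ h3R), ha.1.1⟩
    have hLne : ((V' ∩ V'') \ (V₀ ∪ R)).Nonempty :=
      ⟨m, by
        rw [Finset.mem_sdiff, Finset.mem_inter, Finset.mem_union, not_or]
        exact ⟨⟨hm, hm'⟩, hmV, hmR⟩⟩
    have hLneq : (V' ∩ V'') \ (V₀ ∪ R) ≠ V'.erase t₃ := by
      intro hh
      have : t₂ ∈ V'.erase t₃ := Finset.mem_erase.2 ⟨fun e => h32 e.symm, hVR' t₂ h'.wR hne.symm⟩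
      rw [← hh, Finset.mem_sdiff, Finset.mem_union, not_or] at this
      exact this.2.2 h'.wR
    obtain ⟨p, hp, hp1, hp2⟩ := hC'.conn t₃ _ hLsub hLne hLneq
    obtain ⟨m', hm'N, hm'L⟩ := meets_iff.1 hp1
    rw [Finset.mem_sdiff, Finset.mem_inter, Finset.mem_union, not_or] at hm'L
    obtain ⟨b, hbN, hb⟩ := meets_iff.1 hp2
    rw [Finset.mem_sdiff, Finset.mem_erase, Finset.mem_sdiff, Finset.mem_inter,
      Finset.mem_union] at hb
    have hnv := hnm p hp m' hm'N hm'L.2.1 hm'L.2.2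
    have hpm' : Meets X p V' := meets_of hm'N hm'L.1.1
    have hpm'' : Meets X p V'' := meets_of hm'N hm'L.1.2
    have hbV₀ := hnv b hbN
    have hbt : b = t₂ := by
      by_cases hbR : b ∈ R
      · rcases hall b hbR with rfl | rfl | rfl
        · exact absurd rfl (hVR _ hb.1.2 hbR)
        · rfl
        · exact absurd rfl hb.1.1
      · rcases Finset.mem_union.1 (S_N h'.V'S hp hpm'' hbN) with hh | hh
        · exfalso
          apply hb.2
          refine ⟨⟨hb.1.2, hh⟩, ?_⟩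
          rw [not_or]
          exact ⟨hbV₀, hbR⟩
        · exact hQ' b hh hbV₀
    rw [hbt] at hbN
    have h2 := hC''.two p hp hpm''
    obtain ⟨c, hc, hcm⟩ := Finset.exists_mem_ne (by omega : 1 < (X.N p ∩ V'').card) m'
    rw [Finset.mem_inter] at hc
    have hcV' : c ∉ V' := by
      intro hh
      have hc2 : c ≠ t₂ := fun e => hVR2 t₂ (e ▸ hc.2) h'.wR rfl
      have h3 : ({c, m', t₂} : Finset T) ⊆ X.N p ∩ V' := by
        intro a ha
        simp only [mem_insert, mem_singleton] at ha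
        rw [Finset.mem_inter]
        rcases ha with rfl | rfl | rfl
        · exact ⟨hc.1, hh⟩
        · exact ⟨hm'N, hm'L.1.1⟩
        · exact ⟨hbN, hVR' _ h'.wR hne.symm⟩
      have h4 := Finset.card_le_card h3
      rw [hC'.two p hp hpm', Finset.card_insert_of_notMem, Finset.card_pair] at h4
      · omega
      · exact fun e => hm'L.2.2 (e ▸ h'.wR)
      · simp only [mem_insert, mem_singleton, not_or]
        exact ⟨hcm, hc2⟩
    have hct : c = t₁ := by
      rcases Finset.mem_union.1 (S_N h.V'S hp hpm' hc.1) with hh | hh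
      · exact absurd hh hcV'
      · exact hQ c hh (hnv c hc.1)
    rw [hct] at hc
    have hpy := hl.two p hp t₁ hc.1 t₂ hbN h.wR h'.wR hne
    rw [hpy, hl.yR] at hm'N
    exact hm'L.2.2 hm'N
  intro o ho hoV
  by_contra hoR
  have hLsub : V' \ (V₀ ∪ R) ⊆ V'.erase t₂ := by
    intro a ha
    rw [Finset.mem_sdiff, Finset.mem_union, not_or] at ha
    exact Finset.mem_erase.2 ⟨fun hh => ha.2.2 (hh ▸ h'.wR), ha.1⟩
  have hLne : (V' \ (V₀ ∪ R)).Nonempty :=
    ⟨o, by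
      rw [Finset.mem_sdiff, Finset.mem_union, not_or]
      exact ⟨ho, hoV, hoR⟩⟩
  have hLneq : V' \ (V₀ ∪ R) ≠ V'.erase t₂ := by
    intro hh
    have : t₃ ∈ V'.erase t₂ := Finset.mem_erase.2 ⟨h32, hVR' t₃ h3R h31⟩
    rw [← hh, Finset.mem_sdiff, Finset.mem_union, not_or] at this
    exact this.2.2 h3R
  obtain ⟨p, hp, hp1, hp2⟩ := hC'.conn t₂ _ hLsub hLne hLneq
  obtain ⟨m', hm'N, hm'L⟩ := meets_iff.1 hp1
  rw [Finset.mem_sdiff, Finset.mem_union, not_or] at hm'L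
  obtain ⟨b, hbN, hb⟩ := meets_iff.1 hp2
  rw [Finset.mem_sdiff, Finset.mem_erase, Finset.mem_sdiff, Finset.mem_union] at hb
  have hnv := hnm p hp m' hm'N hm'L.2.1 hm'L.2.2
  have hbV₀ := hnv b hbN
  have hbR : b ∈ R := by
    by_contra hn
    apply hb.2
    refine ⟨hb.1.2, ?_⟩
    rw [not_or]
    exact ⟨hbV₀, hn⟩
  have hbt : b = t₃ := by
    rcases hall b hbR with rfl | rfl | rfl
    · exact absurd rfl (hVR _ hb.1.2 hbR)
    · exact absurd rfl hb.1.1
    · rfl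
  rw [hbt] at hbN
  have hpm'' : Meets X p V'' := meets_of hbN (hVR2' t₃ h3R h32)
  rcases Finset.mem_union.1 (S_N h'.V'S hp hpm'' hm'N) with hh | hh
  · exact hM m' hm'L.1 hh hm'L.2.1 hm'L.2.2
  · have := hQ' m' hh hm'L.2.1
    exact hm'L.2.2 (this ▸ h'.wR)

lemma thinthin (hB : ∀ V, Bad V → Clu X V) (hX : NG3 X Bad) (hR : R ⊆ X.U)
    (hl : Lev X Bad R V₀ y) {x x' : P} {t₁ t₂ : T}
    {V' Q V'' Q' : Finset T} (h : Dat X Bad R V₀ y x t₁ V' Q)
    (h' : Dat X Bad R V₀ y x' t₂ V'' Q') (hne : t₁ ≠ t₂) (ht : Q \ V₀ = {t₁})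
    (ht' : Q' \ V₀ = {t₂}) : False := by
  have hO1 := thin1 hB hl h h' hne ht ht'
  have hO2 := thin1 hB hl h' h hne.symm ht' ht
  obtain ⟨t₃, h3R, h31, h32, hall⟩ := third hl.R3 h.wR h'.wR hne
  have hV₀ := hl.hV
  have hC₀ := hB V₀ (S_bad hV₀)
  -- a player with a target outside `V₀ ∪ R` has no target in `R`
  have key : ∀ p ∈ X.A, ∀ o ∈ X.N p, o ∉ V₀ → o ∉ R → ∀ b ∈ X.N p, b ∉ V₀ ∪ R := by
    intro p hp o ho hoV hoR b hb hbb
    have hnv : ∀ c ∈ X.N p, c ∉ V₀ := by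
      intro c hc hcV
      rcases Finset.mem_union.1 (S_N hV₀ hp (meets_of hc hcV) ho) with hh | hh
      · exact hoV hh
      · exact hoR hh
    have hbR : b ∈ R := by
      rcases Finset.mem_union.1 hbb with hh | hh
      · exact absurd hh (hnv b hb)
      · exact hh
    have hyes : ∀ W, (∀ o ∈ W, o ∉ V₀ → o ∈ R) → (∃ q, W ∈ S X Bad q) → b ∈ W → False := by
      intro W hW hWS hbW
      obtain ⟨q, hWS⟩ := hWS
      have hCW := hB W (S_bad hWS)
      have h2 := hCW.two p hp (meets_of hb hbW)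
      obtain ⟨c, hc, hcb⟩ := Finset.exists_mem_ne (by omega : 1 < (X.N p ∩ W).card) b
      rw [Finset.mem_inter] at hc
      have hcR := hW c hc.2 (hnv c hc.1)
      have hpy := hl.two p hp c hc.1 b hb hcR hbR hcb
      rw [hpy, hl.yR] at ho
      exact hoR ho
    by_cases hb1 : b = t₁
    · refine hyes V'' hO2 ⟨Q', h'.V'S⟩ ?_
      have : b ∈ V'' ∩ R := by
        rw [h'.V'R]
        exact Finset.mem_erase.2 ⟨hb1 ▸ hne, hbR⟩
      exact (Finset.mem_inter.1 this).1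
    · refine hyes V' hO1 ⟨Q, h.V'S⟩ ?_
      have : b ∈ V' ∩ R := by
        rw [h.V'R]
        exact Finset.mem_erase.2 ⟨hb1, hbR⟩
      exact (Finset.mem_inter.1 this).1
  have hne0 : V₀.Nonempty := by
    rw [← Finset.card_pos]
    have := clu_card3 hC₀
    omega
  have hU : X.U = V₀ ∪ R := by
    apply Finset.Subset.antisymm
    · intro o ho
      by_contra hno
      have hne' : X.U \ (V₀ ∪ R) ≠ X.U := by
        intro hh
        obtain ⟨a, ha⟩ := hne0
        have := S_sub hV₀ ha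
        rw [← hh, Finset.mem_sdiff] at this
        exact this.2 (Finset.mem_union_left _ ha)
      obtain ⟨p, hp, hp1, hp2⟩ := hX.conn (X.U \ (V₀ ∪ R)) Finset.sdiff_subset
        ⟨o, Finset.mem_sdiff.2 ⟨ho, hno⟩⟩ hne'
      obtain ⟨c, hc, hcc⟩ := meets_iff.1 hp1
      obtain ⟨b, hb, hbb⟩ := meets_iff.1 hp2
      rw [Finset.mem_sdiff, Finset.mem_union, not_or] at hcc
      refine key p hp c hc hcc.2.1 hcc.2.2 b hb ?_
      rw [Finset.mem_sdiff, Finset.mem_sdiff, not_and_not_right] at hbb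
      exact hbb.2 hbb.1
    · exact Finset.union_subset (S_sub hV₀) hR
  have hUc : X.U.card = V₀.card + 3 := by
    rw [hU, Finset.card_union_of_disjoint (S_disj hV₀), hl.R3]
  have hyE : y ∉ E X V₀ := by
    intro hh
    rw [E, Finset.mem_filter] at hh
    obtain ⟨a, ha, haV⟩ := meets_iff.1 hh.2
    rw [hl.yR] at ha
    exact (Finset.disjoint_left.1 (S_disj hV₀)) haV ha
  have hA : X.A = insert y (E X V₀) := by
    ext p
    rw [Finset.mem_insert]
    constructor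
    · intro hp
      by_cases hpm : Meets X p V₀
      · right
        rw [E, Finset.mem_filter]
        exact ⟨hp, hpm⟩
      · left
        have : p ∈ J X R := by
          rw [mem_J']
          refine ⟨hp, fun a ha => ?_⟩
          have := X.sub p hp ha
          rw [hU, Finset.mem_union] at this
          rcases this with hh | hh
          · exact absurd (meets_of ha hh) hpm
          · exact hh
        rw [hl.Jy, Finset.mem_singleton] at this
        exact this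
    · rintro (rfl | hp)
      · exact hl.yA
      · rw [E, Finset.mem_filter] at hp
        exact hp.1
  have hAc : X.A.card = (E X V₀).card + 1 := by
    rw [hA, Finset.card_insert_of_notMem hyE]
  have h1 := hC₀.phi
  have h2 := hX.phi
  omega

end Thin

/-! ### 7.5 -/

section Fat

variable {R V₀ : Finset T} {y : P}

lemma tri (hC : Clu X V₀) {p q r : P} (hp : p ∈ X.A) (hq : q ∈ X.A) (hr : r ∈ X.A)
    {a b c : T} (hab : a ≠ b) (hac : a ≠ c) (hbc : b ≠ c) (h1 : X.N p ∩ V₀ = {a, b})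
    (h2 : X.N q ∩ V₀ = {a, c}) (h3 : X.N r ∩ V₀ = {b, c}) : False := by
  have hcard : ({a, b, c} : Finset T).card = 3 := by
    rw [Finset.card_insert_of_notMem, Finset.card_pair hbc]
    simp only [mem_insert, mem_singleton, not_or]
    exact ⟨hab, hac⟩
  have ha : a ∈ X.N p ∩ V₀ := by rw [h1]; simp
  have hb : b ∈ X.N p ∩ V₀ := by rw [h1]; simp
  have hc : c ∈ X.N q ∩ V₀ := by rw [h2]; simp
  have hsub : ({a, b, c} : Finset T) ⊆ V₀ := by
    intro t ht
    simp only [mem_insert, mem_singleton] at ht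
    rcases ht with rfl | rfl | rfl
    · exact (Finset.mem_inter.1 ha).2
    · exact (Finset.mem_inter.1 hb).2
    · exact (Finset.mem_inter.1 hc).2
  have hsp := hC.sp3 _ hsub (by omega)
  have hpq : p ≠ q := by
    intro e
    rw [e, h2] at h1
    have : b ∈ ({a, c} : Finset T) := by rw [h1]; simp
    simp only [mem_insert, mem_singleton] at this
    rcases this with hh | hh
    · exact hab hh.symm
    · exact hbc hh
  have hpr : p ≠ r := by
    intro e
    rw [e, h3] at h1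
    have : a ∈ ({b, c} : Finset T) := by rw [h1]; simp
    simp only [mem_insert, mem_singleton] at this
    rcases this with hh | hh
    · exact hab hh
    · exact hac hh
  have hqr : q ≠ r := by
    intro e
    rw [e, h3] at h2
    have : a ∈ ({b, c} : Finset T) := by rw [h2]; simp
    simp only [mem_insert, mem_singleton] at this
    rcases this with hh | hh
    · exact hab hh
    · exact hac hh
  have h4 : ({p, q, r} : Finset P) ⊆ Ei X V₀ {a, b, c} := by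
    intro s hs
    simp only [mem_insert, mem_singleton] at hs
    rw [Ei, Finset.mem_filter]
    have hmm : ∀ s : P, ∀ t : T, t ∈ X.N s ∩ V₀ → Meets X s V₀ := fun s t ht =>
      meets_of (Finset.mem_inter.1 ht).1 (Finset.mem_inter.1 ht).2
    rcases hs with rfl | rfl | rfl
    · refine ⟨hp, hmm _ a ha, ?_⟩
      rw [h1]
      intro t ht
      simp only [mem_insert, mem_singleton] at ht ⊢
      tauto
    · refine ⟨hq, hmm _ c hc, ?_⟩
      rw [h2]
      intro t ht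
      simp only [mem_insert, mem_singleton] at ht ⊢
      tauto
    · refine ⟨hr, hmm _ b (by rw [h3]; simp), ?_⟩
      rw [h3]
      intro t ht
      simp only [mem_insert, mem_singleton] at ht ⊢
      tauto
  have h5 := Finset.card_le_card h4
  have h6 : ({p, q, r} : Finset P).card = 3 := by
    rw [Finset.card_insert_of_notMem, Finset.card_pair hqr]
    simp only [mem_insert, mem_singleton, not_or]
    exact ⟨hpq, hpr⟩
  omega

lemma fat_aux (hB : ∀ V, Bad V → Clu X V) (hl : Lev X Bad R V₀ y) {x g g' : P} {t₂ t₃ : T}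
    {V' Q Vg Qg : Finset T} (h : Dat X Bad R V₀ y x t₂ V' Q)
    (hg : Dat X Bad R V₀ y g t₃ Vg Qg) (hgf : V₀ ∩ Qg = X.N g ∩ V₀) {u v i i' t : T}
    (huv : u ≠ v) (hx : X.N x ∩ V₀ = {u, v}) (hgN : X.N g ∩ V₀ = {u, i}) (hi : i ∈ V')
    (hg' : g' ∈ X.A) (hgN' : X.N g' ∩ V₀ = {v, i'}) (hi' : i' ∈ V') (ht : t ∈ X.N g')
    (htR : t ∈ R) : t = t₃ := by
  by_contra htt
  have hV₀ := hl.hV
  have hg'm : Meets X g' V₀ := by
    have : v ∈ X.N g' ∩ V₀ := by rw [hgN']; simp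
    exact meets_of (Finset.mem_inter.1 this).1 (Finset.mem_inter.1 this).2
  obtain ⟨i₁, d₁, hid, hN, hi₁, hd₁Q, hd₁V⟩ := hg.cutA hB hV₀ hl.one hg' hg'm ht htR htt
  have hQ : ∀ a, a ∈ Q → a ∉ V' := fun a ha ha' => (Finset.disjoint_left.1 (S_disj h.V'S)) ha' ha
  have huQ : u ∉ V' := by
    have : u ∈ X.N x ∩ V₀ := by rw [hx]; simp
    exact hQ u (h.xQ (Finset.mem_inter.1 this).1)
  have hvQ : v ∉ V' := by
    have : v ∈ X.N x ∩ V₀ := by rw [hx]; simp
    exact hQ v (h.xQ (Finset.mem_inter.1 this).1)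
  have hd₁N : d₁ ∈ X.N g' ∩ V₀ := by rw [hN]; simp
  have hd₁g : d₁ ∈ X.N g ∩ V₀ := by
    rw [← hgf]
    exact Finset.mem_inter.2 ⟨(Finset.mem_inter.1 hd₁N).2, hd₁Q⟩
  rw [hgN'] at hd₁N
  rw [hgN] at hd₁g
  simp only [mem_insert, mem_singleton] at hd₁N hd₁g
  rcases hd₁g with rfl | rfl
  · rcases hd₁N with hh | hh
    · exact huv hh
    · exact huQ (hh ▸ hi')
  · rcases hd₁N with hh | hh
    · exact hvQ (hh ▸ hi)
    · subst hh
      have hui : u ≠ d₁ := fun e => huQ (e ▸ hi)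
      have hvi : v ≠ d₁ := fun e => hvQ (e ▸ hi)
      exact tri (hB V₀ (S_bad hV₀)) h.xA hg.xA hg' huv hui hvi hx hgN hgN'

lemma fatfat (hB : ∀ V, Bad V → Clu X V) (hl : Lev X Bad R V₀ y) {t₂ t₃ : T} (h2 : t₂ ∈ R)
    (h3 : t₃ ∈ R) (hne : t₂ ≠ t₃)
    (hf : ∀ x w V' Q, Dat X Bad R V₀ y x w V' Q → (w = t₂ ∨ w = t₃) →
      V₀ ∩ Q = X.N x ∩ V₀) : False := by
  have hV₀ := hl.hV
  have hC₀ := hB V₀ (S_bad hV₀)
  obtain ⟨t₁, h1R, h12, h13, hall⟩ := third hl.R3 h2 h3 hne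
  obtain ⟨x, hx, hxm, hxt⟩ := hl.ex t₂ h2
  obtain ⟨V', Q, h⟩ := hl.dat x hx hxm t₂ hxt h2
  have hfx := hf _ _ _ _ h (Or.inl rfl)
  obtain ⟨u, v, huv, hxN⟩ := Finset.card_eq_two.1 (hC₀.two x hx hxm)
  have hne0 := (h.toks hB hV₀).1
  have hQ : ∀ a, a ∈ Q → a ∉ V' := fun a ha ha' => (Finset.disjoint_left.1 (S_disj h.V'S)) ha' ha
  -- edges at both ends
  have hend : ∀ u v : T, u ≠ v → X.N x ∩ V₀ = {u, v} → ∃ g ∈ X.A, ∃ i t, i ∈ V' ∧
      X.N g ∩ V₀ = {v, i} ∧ t ∈ X.N g ∧ t ∈ R ∧ t ≠ t₂ := by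
    intro u v huv hxN
    have hu : u ∈ X.N x ∩ V₀ := by rw [hxN]; simp
    have hv : v ∈ X.N x ∩ V₀ := by rw [hxN]; simp
    rw [Finset.mem_inter] at hu hv
    have huV := hQ u (h.xQ hu.1)
    have hvV := hQ v (h.xQ hv.1)
    have hLsub : V₀ ∩ V' ⊆ V₀.erase u := by
      intro a ha
      rw [Finset.mem_inter] at ha
      exact Finset.mem_erase.2 ⟨fun e => huV (e ▸ ha.2), ha.1⟩
    have hLneq : V₀ ∩ V' ≠ V₀.erase u := by
      intro hh
      have : v ∈ V₀.erase u := Finset.mem_erase.2 ⟨huv.symm, hv.2⟩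
      rw [← hh, Finset.mem_inter] at this
      exact hvV this.2
    obtain ⟨g, hg, hg1, hg2⟩ := hC₀.conn u _ hLsub hne0 hLneq
    obtain ⟨i, hi, hi'⟩ := meets_iff.1 hg1
    obtain ⟨b, hb, hb'⟩ := meets_iff.1 hg2
    rw [Finset.mem_inter] at hi'
    rw [Finset.mem_sdiff, Finset.mem_erase, Finset.mem_inter, not_and] at hb'
    have hbV := hb'.2 hb'.1.2
    obtain ⟨hbQ, t, ht, htR, htt⟩ := h.cutB hB hV₀ hg hi hi'.1 hi'.2 hb hb'.1.2 hbV
    have hbv : b = v := by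
      have : b ∈ X.N x ∩ V₀ := by
        rw [← hfx]
        exact Finset.mem_inter.2 ⟨hb'.1.2, hbQ⟩
      rw [hxN] at this
      simp only [mem_insert, mem_singleton] at this
      rcases this with e | e
      · exact absurd e hb'.1.1
      · exact e
    refine ⟨g, hg, i, t, hi'.2, ?_, ht, htR, htt⟩
    have hvi : v ≠ i := fun e => hvV (e ▸ hi'.2)
    symm
    apply Finset.eq_of_subset_of_card_le
    · intro a ha
      simp only [mem_insert, mem_singleton] at ha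
      rw [Finset.mem_inter]
      rcases ha with rfl | rfl
      · rw [← hbv]
        exact ⟨hb, hb'.1.2⟩
      · exact ⟨hi, hi'.1⟩
    · rw [hC₀.two g hg (meets_of hi hi'.1), Finset.card_pair hvi]
  -- the core argument
  have core : ∀ u v : T, u ≠ v → X.N x ∩ V₀ = {u, v} → ∀ r i, r ∈ X.A → i ∈ V' →
      X.N r ∩ V₀ = {u, i} → t₃ ∈ X.N r → False := by
    intro u v huv hxN r i hr hi hrN hrt
    have hrm : Meets X r V₀ := by
      have : u ∈ X.N r ∩ V₀ := by rw [hrN]; simp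
      exact meets_of (Finset.mem_inter.1 this).1 (Finset.mem_inter.1 this).2
    obtain ⟨Vr, Qr, hrD⟩ := hl.dat r hr hrm t₃ hrt h3
    have hrf := hf _ _ _ _ hrD (Or.inr rfl)
    obtain ⟨g, hg, j, t, hj, hgN, ht, htR, htt⟩ := hend u v huv hxN
    have ht3 := fat_aux hB hl h hrD hrf huv hxN hrN hi hg hgN hj ht htR
    rw [ht3] at ht
    have hgm : Meets X g V₀ := by
      have : v ∈ X.N g ∩ V₀ := by rw [hgN]; simp
      exact meets_of (Finset.mem_inter.1 this).1 (Finset.mem_inter.1 this).2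
    obtain ⟨Vg, Qg, hgD⟩ := hl.dat g hg hgm t₃ ht h3
    have hgf := hf _ _ _ _ hgD (Or.inr rfl)
    -- an edge with token t₁
    obtain ⟨s, hs, hsm, hst⟩ := hl.ex t₁ h1R
    obtain ⟨j', d', hjd, hsN, hj', hd'Q, hd'V⟩ :=
      h.cutA hB hV₀ hl.one hs hsm hst h1R h12
    have hd' : d' ∈ X.N x ∩ V₀ := by
      have : d' ∈ X.N s ∩ V₀ := by rw [hsN]; simp
      rw [← hfx]
      exact Finset.mem_inter.2 ⟨(Finset.mem_inter.1 this).2, hd'Q⟩
    rw [hxN] at hd'
    simp only [mem_insert, mem_singleton] at hd'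
    rw [Finset.pair_comm] at hsN
    rcases hd' with rfl | rfl
    · -- at u: use g at v
      have hxN' : X.N x ∩ V₀ = {v, d'} := by rw [hxN, Finset.pair_comm]
      exact h13 (fat_aux hB hl h hgD hgf huv.symm hxN' hgN hj hs hsN hj' hst h1R)
    · exact h13 (fat_aux hB hl h hrD hrf huv hxN hrN hi hs hsN hj' hst h1R)
  obtain ⟨r, hr, hrm, hrt⟩ := hl.ex t₃ h3
  obtain ⟨i, d, hid, hrN, hi, hdQ, hdV⟩ := h.cutA hB hV₀ hl.one hr hrm hrt h3 hne.symm
  have hd : d ∈ X.N x ∩ V₀ := by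
    have : d ∈ X.N r ∩ V₀ := by rw [hrN]; simp
    rw [← hfx]
    exact Finset.mem_inter.2 ⟨(Finset.mem_inter.1 this).2, hdQ⟩
  rw [hxN] at hd
  simp only [mem_insert, mem_singleton] at hd
  rw [Finset.pair_comm] at hrN
  rcases hd with rfl | rfl
  · exact core d v huv hxN r i hr hi hrN hrt
  · refine core d u huv.symm ?_ r i hr hi hrN hrt
    rw [hxN, Finset.pair_comm]

end Fat

/-! ### conclusion -/

lemma no_lev (hB : ∀ V, Bad V → Clu X V) (hX : NG3 X Bad) {R V₀ : Finset T} {y : P}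
    (hR : R ⊆ X.U) (hl : Lev X Bad R V₀ y) : False := by
  obtain ⟨a, ha⟩ : R.Nonempty := by
    rw [← Finset.card_pos, hl.R3]
    omega
  obtain ⟨b, hb, hba⟩ := Finset.exists_mem_ne (by rw [hl.R3]; omega : 1 < R.card) a
  obtain ⟨c, hc, hca, hcb, hall⟩ := third hl.R3 ha hb hba.symm
  have hfat : ∀ t, (¬ ∃ x V' Q, Dat X Bad R V₀ y x t V' Q ∧ Q \ V₀ = {t}) →
      ∀ x w V' Q, Dat X Bad R V₀ y x w V' Q → w = t → V₀ ∩ Q = X.N x ∩ V₀ := by
    intro t hn x w V' Q h hw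
    subst hw
    rcases h.th with hh | hh
    · exact absurd ⟨x, V', Q, h, hh⟩ hn
    · exact hh
  by_cases h1 : ∃ x V' Q, Dat X Bad R V₀ y x a V' Q ∧ Q \ V₀ = {a}
  · obtain ⟨x, V', Q, h, hq⟩ := h1
    have h2 : ¬ ∃ x V' Q, Dat X Bad R V₀ y x b V' Q ∧ Q \ V₀ = {b} := by
      rintro ⟨x', V'', Q', h', hq'⟩
      exact thinthin hB hX hR hl h h' hba.symm hq hq'
    have h3 : ¬ ∃ x V' Q, Dat X Bad R V₀ y x c V' Q ∧ Q \ V₀ = {c} := by
      rintro ⟨x', V'', Q', h', hq'⟩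
      exact thinthin hB hX hR hl h h' hca.symm hq hq'
    refine fatfat hB hl hb hc hcb.symm ?_
    rintro x w V' Q h (hw | hw)
    · exact hfat b h2 x w V' Q h hw
    · exact hfat c h3 x w V' Q h hw
  · by_cases h2 : ∃ x V' Q, Dat X Bad R V₀ y x b V' Q ∧ Q \ V₀ = {b}
    · obtain ⟨x, V', Q, h, hq⟩ := h2
      have h3 : ¬ ∃ x V' Q, Dat X Bad R V₀ y x c V' Q ∧ Q \ V₀ = {c} := by
        rintro ⟨x', V'', Q', h', hq'⟩
        exact thinthin hB hX hR hl h h' hcb.symm hq hq'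
      refine fatfat hB hl ha hc hca.symm ?_
      rintro x w V' Q h (hw | hw)
      · exact hfat a h1 x w V' Q h hw
      · exact hfat c h3 x w V' Q h hw
    · refine fatfat hB hl ha hb hba.symm ?_
      rintro x w V' Q h (hw | hw)
      · exact hfat a h1 x w V' Q h hw
      · exact hfat b h2 x w V' Q h hw

/-- `κ ≠ 1`. -/
lemma no_lev1 (hB : ∀ V, Bad V → Clu X V) (hX : NG3 X Bad)
    {R : Finset T} (hR : R ⊆ X.U) (hne : (S X Bad R).Nonempty) : F X Bad R ≤ -3 := by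
  obtain ⟨V₀, hV₀⟩ := hne
  obtain ⟨x, hx, hm, hW⟩ := exists_tok hB hX hV₀
  obtain ⟨Q, hQ⟩ := exists_wit (Bad := Bad) hx
  obtain ⟨b1, b2, b3, b4, b5, b6, b7, b8, b9, b10, b11, b12⟩ := block hB hR hV₀ hx hm hQ
  have hQU := hQ.2.1
  have g1 := hX.g1 x hx Q hQ
  have hne1 : (R ∩ Q).Nonempty := by
    obtain ⟨a, ha⟩ := hW
    exact ⟨a, Finset.mem_inter.2 ⟨b3 ha, hQ.1 (Finset.mem_sdiff.1 ha).1⟩⟩
  have f1 := hX.g0 (R ∩ Q) (Finset.inter_subset_left.trans hR) hne1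
  have f2 := hX.g0 (Q \ hit X Bad R Q) (Finset.sdiff_subset.trans hQU) (hW.mono b4)
  have h1pos : 1 ≤ (H X Bad R Q).card := Finset.card_pos.2 ⟨_, b1⟩
  by_contra hlt
  omega

theorem kap1 : Kap1Stmt := by
  intro T P X Bad hB hX R hR hne
  by_contra hlt
  have h3 : ∀ R, R ⊆ X.U → (S X Bad R).Nonempty → F X Bad R ≤ -3 :=
    fun R hR hne => no_lev1 hB hX hR hne
  have hF : F X Bad R = -3 := by
    have := h3 R hR hne
    omega
  obtain ⟨V₀, hV₀⟩ := hne
  obtain ⟨y, hl⟩ := lev hB hX h3 hR hV₀ hF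
  exact no_lev hB hX hR hl

end Pool.Agent.TDL.H34
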