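import Pool.Agent.Helper34_TDL.CluOf
import Pool.Agent.Helper34_TDL.Kap1b
import Pool.Agent.Helper75_TDL.Conv
import Pool.Agent.Helper75_TDL.Cl1
import Pool.Agent.Helper11_TDL.Hlf
import Pool.Agent.Helper53_TDL.Drop
import Pool.Agent.Helper63_TDL.Fal
import Pool.Agent.Helper71_TDG.LpBfNb

/-!
# The last case `R0Stmt` from `Kap2Stmt`
-/

set_option autoImplicit false

namespace Pool.Agent.TDG.BR

theorem r0_of_kap2 (h : TDL.Kap2Stmt) : R0Stmt :=
  r0_of TDL.H75.conv TDL.H75.cl1 TDL.H11.hlf (TDL.last2_of TDL.H34.kap1 h) H71.nbs cluOf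
    H63.fall H53.dropLight H53.dropHeavy

end Pool.Agent.TDG.BR
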