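import Pool.Agent.Helper34_TDL.Defs

/-!
# Last case: uncrossing
-/

set_option autoImplicit false

namespace Pool.Agent.TDL.H34

open Finset
open scoped Classical

variable {T P : Type} {X : Pos T P} {Bad : Finset T → Prop}

/-! ### basic facts -/

lemma mem_J' {R : Finset T} {p : P} : p ∈ J X R ↔ p ∈ X.A ∧ X.N p ⊆ R := by
  simp [J]

lemma mem_S' {R V : Finset T} : V ∈ S X Bad R ↔ V ⊆ X.U ∧ Bad V ∧ Viab X V ∧ Disjoint V R ∧
    ∀ p ∈ X.A, Meets X p V → X.N p ⊆ V ∪ R := by
  simp [S]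

lemma meets_iff {p : P} {V : Finset T} : Meets X p V ↔ ∃ a ∈ X.N p, a ∈ V := by
  unfold Meets
  rw [Finset.not_disjoint_iff]

lemma meets_of {p : P} {V : Finset T} {a : T} (h : a ∈ X.N p) (h' : a ∈ V) : Meets X p V :=
  meets_iff.2 ⟨a, h, h'⟩

lemma mmono {p : P} {V W : Finset T} (h : Meets X p V) (h' : V ⊆ W) : Meets X p W := by
  obtain ⟨a, ha, hb⟩ := meets_iff.1 h
  exact meets_of ha (h' hb)

lemma S_bad {R V : Finset T} (h : V ∈ S X Bad R) : Bad V := (mem_S'.1 h).2.1
lemma S_sub {R V : Finset T} (h : V ∈ S X Bad R) : V ⊆ X.U := (mem_S'.1 h).1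
lemma S_viab {R V : Finset T} (h : V ∈ S X Bad R) : Viab X V := (mem_S'.1 h).2.2.1
lemma S_disj {R V : Finset T} (h : V ∈ S X Bad R) : Disjoint V R := (mem_S'.1 h).2.2.2.1
lemma S_N {R V : Finset T} (h : V ∈ S X Bad R) {p : P} (hp : p ∈ X.A) (hm : Meets X p V) :
    X.N p ⊆ V ∪ R := (mem_S'.1 h).2.2.2.2 p hp hm

/-- The targets of an edge of a closed cluster outside `R` are its two ends. -/
lemma S_mem {R V : Finset T} (h : V ∈ S X Bad R) {p : P} (hp : p ∈ X.A) (hm : Meets X p V)
    {a : T} (ha : a ∈ X.N p) : a ∈ V ↔ a ∉ R := by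
  constructor
  · intro h1 h2
    exact (Finset.disjoint_left.1 (S_disj h)) h1 h2
  · intro h1
    rcases Finset.mem_union.1 (S_N h hp hm ha) with h2 | h2
    · exact h2
    · exact absurd h2 h1

/-- Connectedness of a bad cluster. -/
lemma clu_conn {V : Finset T} (h : Clu X V) {L : Finset T} (hL : L ⊆ V) (hne : L.Nonempty)
    (hV : L ≠ V) : ∃ p ∈ X.A, Meets X p L ∧ Meets X p (V \ L) := by
  have h3 : 3 ≤ V.card := by
    by_contra hlt
    have hphi := h.phi
    have hE : (E X V).card + 3 ≤ 2 * V.card ∨ V.card ≤ 1 := by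
      rcases Nat.lt_or_ge V.card 2 with h1 | h1
      · right; omega
      · left
        have := h.sp2 V (Subset.refl _) h1
        have h2 : Ei X V V = E X V := by
          ext p
          simp [Ei, E]
        rw [h2] at this
        exact this
    rcases hE with hE | hE
    · omega
    · have h0 : (E X V).card = 0 := by
        rw [Finset.card_eq_zero, Finset.eq_empty_iff_forall_notMem]
        intro p hp
        rw [E, Finset.mem_filter] at hp
        have h2 := h.two p hp.1 hp.2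
        have : (X.N p ∩ V).card ≤ V.card := Finset.card_le_card Finset.inter_subset_right
        omega
      omega
  obtain ⟨b, hb⟩ : (V \ L).Nonempty := by
    rw [Finset.sdiff_nonempty]
    intro hh
    exact hV (Subset.antisymm hL hh)
  obtain ⟨hbV, hbL⟩ := Finset.mem_sdiff.1 hb
  rcases Nat.lt_or_ge L.card 2 with h1 | h1
  · -- L is a single vertex: remove a vertex outside L
    have hcard : 2 ≤ (V \ L).card := by
      have := Finset.card_sdiff_add_card_eq_card hL
      omega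
    obtain ⟨c, hc, hcb⟩ := Finset.exists_mem_ne (by omega : 1 < (V \ L).card) b
    obtain ⟨hcV, hcL⟩ := Finset.mem_sdiff.1 hc
    have hsub : L ⊆ V.erase c := by
      intro a ha
      rw [Finset.mem_erase]
      exact ⟨fun h => hcL (h ▸ ha), hL ha⟩
    have hneq : L ≠ V.erase c := by
      intro h
      have : b ∈ V.erase c := Finset.mem_erase.2 ⟨fun h => hcb h.symm, hbV⟩
      rw [← h] at this
      exact hbL this
    obtain ⟨p, hp, hm, hm'⟩ := h.conn c L hsub hne hneq
    exact ⟨p, hp, hm, mmono hm' (Finset.sdiff_subset_sdiff (Finset.erase_subset _ _)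
      (Subset.refl _))⟩
  · obtain ⟨c, hc⟩ := hne
    have hsub : L.erase c ⊆ V.erase c := Finset.erase_subset_erase _ hL
    have hne' : (L.erase c).Nonempty := by
      rw [← Finset.card_pos, Finset.card_erase_of_mem hc]
      omega
    have hneq : L.erase c ≠ V.erase c := by
      intro h
      have hbc : b ≠ c := fun h => hbL (h ▸ hc)
      have : b ∈ V.erase c := Finset.mem_erase.2 ⟨hbc, hbV⟩
      rw [← h] at this
      exact hbL (Finset.mem_of_mem_erase this)
    obtain ⟨p, hp, hm, hm'⟩ := h.conn c _ hsub hne' hneq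
    refine ⟨p, hp, mmono hm (Finset.erase_subset _ _), mmono hm' ?_⟩
    intro a ha
    rw [Finset.mem_sdiff, Finset.mem_erase, Finset.mem_erase] at ha
    rw [Finset.mem_sdiff]
    exact ⟨ha.1.2, fun h => ha.2 ⟨ha.1.1, h⟩⟩

lemma clu_card3 {V : Finset T} (h : Clu X V) : 3 ≤ V.card := by
  by_contra hlt
  have hphi := h.phi
  have hE : (E X V).card + 3 ≤ 2 * V.card ∨ V.card ≤ 1 := by
    rcases Nat.lt_or_ge V.card 2 with h1 | h1
    · right; omega
    · left
      have := h.sp2 V (Subset.refl _) h1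
      have h2 : Ei X V V = E X V := by
        ext p
        simp [Ei, E]
      rw [h2] at this
      exact this
  rcases hE with hE | hE
  · omega
  · have h0 : (E X V).card = 0 := by
      rw [Finset.card_eq_zero, Finset.eq_empty_iff_forall_notMem]
      intro p hp
      rw [E, Finset.mem_filter] at hp
      have h2 := h.two p hp.1 hp.2
      have : (X.N p ∩ V).card ≤ V.card := Finset.card_le_card Finset.inter_subset_right
      omega
    omega

/-- Clusters closed by the same set are disjoint; a player meets at most one of them. -/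
lemma S_unique (hB : ∀ V, Bad V → Clu X V) {R V V' : Finset T} (h : V ∈ S X Bad R)
    (h' : V' ∈ S X Bad R) {p : P} (hp : p ∈ X.A) (hm : Meets X p V) (hm' : Meets X p V') :
    V = V' := by
  have key : ∀ V V' : Finset T, V ∈ S X Bad R → V' ∈ S X Bad R → ¬ Disjoint V V' → V ⊆ V' := by
    intro V V' h h' hd
    by_contra hsub
    have hL : V ∩ V' ≠ V := fun hh => hsub (Finset.inter_eq_left.1 hh)
    have hne : (V ∩ V').Nonempty := Finset.not_disjoint_iff_nonempty_inter.1 hd
    obtain ⟨q, hq, hq1, hq2⟩ := clu_conn (hB V (S_bad h)) Finset.inter_subset_left hne hL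
    obtain ⟨b, hb, hb'⟩ := meets_iff.1 hq2
    rw [Finset.mem_sdiff, Finset.mem_inter] at hb'
    have hmV' : Meets X q V' := mmono hq1 Finset.inter_subset_right
    have hmV : Meets X q V := mmono hq1 Finset.inter_subset_left
    have h1 := (S_mem h hq hmV hb).1 hb'.1
    exact hb'.2 ⟨hb'.1, (S_mem h' hq hmV' hb).2 h1⟩
  obtain ⟨a, ha, haV⟩ := meets_iff.1 hm
  have haV' : a ∈ V' := (S_mem h' hp hm' ha).2 ((S_mem h hp hm ha).1 haV)
  have hd : ¬ Disjoint V V' := Finset.not_disjoint_iff.2 ⟨a, haV, haV'⟩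
  exact Subset.antisymm (key V V' h h' hd) (key V' V h' h (fun hh => hd hh.symm))

lemma S_disjoint (hB : ∀ V, Bad V → Clu X V) {R V V' : Finset T} (h : V ∈ S X Bad R)
    (h' : V' ∈ S X Bad R) (hne : V ≠ V') : Disjoint V V' := by
  rw [Finset.disjoint_left]
  intro a ha ha'
  -- a player at `a`
  have h3 := clu_card3 (hB V (S_bad h))
  have hne1 : ({a} : Finset T) ≠ V := by
    intro hh
    rw [← hh] at h3
    simp at h3
  obtain ⟨p, hp, hm, -⟩ := clu_conn (hB V (S_bad h)) (Finset.singleton_subset_iff.2 ha)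
    (Finset.singleton_nonempty a) hne1
  obtain ⟨c, hc, hca⟩ := meets_iff.1 hm
  rw [Finset.mem_singleton] at hca
  subst hca
  exact hne (S_unique hB h h' hp (meets_of hc ha) (meets_of hc ha'))

/-- Every target of a bad cluster has a player. -/
lemma clu_player {V : Finset T} (h : Clu X V) {a : T} (ha : a ∈ V) : ∃ p ∈ X.A, a ∈ X.N p := by
  have hne1 : ({a} : Finset T) ≠ V := by
    intro hh
    have h3 := clu_card3 h
    rw [← hh] at h3
    simp at h3
  obtain ⟨p, hp, hm, -⟩ := clu_conn h (Finset.singleton_subset_iff.2 ha)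
    (Finset.singleton_nonempty a) hne1
  obtain ⟨c, hc, hca⟩ := meets_iff.1 hm
  rw [Finset.mem_singleton] at hca
  subst hca
  exact ⟨p, hp, hc⟩

/-! ### hits -/

/-- Clusters closed by `R` and hit by `Q`. -/
noncomputable def H (X : Pos T P) (Bad : Finset T → Prop) (R Q : Finset T) : Finset (Finset T) :=
  (S X Bad R).filter fun V => ¬ Disjoint V Q

/-- The hits of `Q` in the clusters closed by `R`. -/
noncomputable def hit (X : Pos T P) (Bad : Finset T → Prop) (R Q : Finset T) : Finset T :=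
  (H X Bad R Q).biUnion fun V => V ∩ Q

/-- Clusters closed by `Q` adjacent to the hits of `Q` in the clusters closed by `R`. -/
noncomputable def L (X : Pos T P) (Bad : Finset T → Prop) (R Q : Finset T) :
    Finset (Finset T) :=
  (S X Bad Q).filter fun V => ∃ p ∈ X.A, Meets X p V ∧ Meets X p (hit X Bad R Q)

/-- Twice the cost of the hit of `Q` in `V`. -/
noncomputable def cost (X : Pos T P) (V Q : Finset T) : ℤ :=
  2 * ((V ∩ Q).card : ℤ) - (((J X Q).filter fun p => Meets X p V).card : ℤ)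

lemma mem_H {R Q V : Finset T} : V ∈ H X Bad R Q ↔ V ∈ S X Bad R ∧ ¬ Disjoint V Q := by
  simp [H]

lemma mem_hit {R Q : Finset T} {a : T} :
    a ∈ hit X Bad R Q ↔ ∃ V ∈ S X Bad R, a ∈ V ∧ a ∈ Q := by
  simp only [hit, mem_biUnion, mem_H, mem_inter]
  constructor
  · rintro ⟨V, ⟨h1, h2⟩, h3, h4⟩
    exact ⟨V, h1, h3, h4⟩
  · rintro ⟨V, h1, h3, h4⟩
    exact ⟨V, ⟨h1, Finset.not_disjoint_iff.2 ⟨a, h3, h4⟩⟩, h3, h4⟩

lemma mem_L {R Q V : Finset T} : V ∈ L X Bad R Q ↔
    V ∈ S X Bad Q ∧ ∃ p ∈ X.A, Meets X p V ∧ Meets X p (hit X Bad R Q) := by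
  simp [L]

lemma hit_disj {R Q : Finset T} : Disjoint (hit X Bad R Q) R := by
  rw [Finset.disjoint_left]
  intro a ha ha'
  obtain ⟨V, hV, h1, -⟩ := mem_hit.1 ha
  exact (Finset.disjoint_left.1 (S_disj hV)) h1 ha'

lemma hit_sub {R Q : Finset T} : hit X Bad R Q ⊆ Q := by
  intro a ha
  obtain ⟨V, hV, -, h1⟩ := mem_hit.1 ha
  exact h1

/-- A cluster closed by `Q` and not hit by `R` is not adjacent to the hits. -/
lemma not_adj (hB : ∀ V, Bad V → Clu X V) {R Q V' : Finset T} (h' : V' ∈ S X Bad Q)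
    (hd : Disjoint V' R) {p : P} (hp : p ∈ X.A) (hm : Meets X p V')
    (hh : Meets X p (hit X Bad R Q)) : False := by
  obtain ⟨d, hd1, hd2⟩ := meets_iff.1 hh
  obtain ⟨V, hV, hdV, hdQ⟩ := mem_hit.1 hd2
  have hmV : Meets X p V := meets_of hd1 hdV
  have h2 := (hB V (S_bad hV)).two p hp hmV
  have h2' := (hB V' (S_bad h')).two p hp hm
  -- the two V'-targets and d are in N p ∩ V
  have hsub : insert d (X.N p ∩ V') ⊆ X.N p ∩ V := by
    intro a ha
    rw [Finset.mem_insert] at ha
    rcases ha with rfl | ha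
    · exact Finset.mem_inter.2 ⟨hd1, hdV⟩
    · rw [Finset.mem_inter] at ha ⊢
      refine ⟨ha.1, (S_mem hV hp hmV ha.1).2 ?_⟩
      exact fun h => (Finset.disjoint_left.1 hd) ha.2 h
  have hdn : d ∉ X.N p ∩ V' := by
    intro h
    rw [Finset.mem_inter] at h
    exact (Finset.disjoint_left.1 (S_disj h')) h.2 hdQ
  have := Finset.card_le_card hsub
  rw [Finset.card_insert_of_notMem hdn] at this
  omega

lemma L_sub_H (hB : ∀ V, Bad V → Clu X V) {R Q : Finset T} : L X Bad R Q ⊆ H X Bad Q R := by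
  intro V' h'
  obtain ⟨h1, p, hp, hm, hh⟩ := mem_L.1 h'
  rw [mem_H]
  refine ⟨h1, fun hd => not_adj hB h1 hd hp hm hh⟩

/-! ### counting -/

lemma card_hit (hB : ∀ V, Bad V → Clu X V) (R Q : Finset T) :
    (hit X Bad R Q).card = ∑ V ∈ H X Bad R Q, (V ∩ Q).card := by
  unfold hit
  refine Finset.card_biUnion ?_
  intro V hV V' hV' hne
  have hd := S_disjoint hB (mem_H.1 hV).1 (mem_H.1 hV').1 hne
  exact hd.mono Finset.inter_subset_left Finset.inter_subset_left

lemma J_sdiff_hit (R Q : Finset T) :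
    J X (Q \ hit X Bad R Q) = J X Q \ (H X Bad R Q).biUnion
      fun V => (J X Q).filter fun p => Meets X p V := by
  ext p
  simp only [mem_J', mem_sdiff, mem_biUnion, mem_filter, not_exists, not_and, mem_H]
  constructor
  · rintro ⟨hp, hN⟩
    refine ⟨⟨hp, fun a ha => (Finset.mem_sdiff.1 (hN ha)).1⟩, ?_⟩
    rintro V ⟨hV, hd⟩ hpQ hm
    obtain ⟨a, ha, haV⟩ := meets_iff.1 hm
    have h1 := Finset.mem_sdiff.1 (hN ha)
    exact h1.2 (mem_hit.2 ⟨V, hV, haV, h1.1⟩)
  · rintro ⟨⟨hp, hN⟩, h⟩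
    refine ⟨hp, fun a ha => ?_⟩
    rw [Finset.mem_sdiff]
    refine ⟨hN ha, fun hh => ?_⟩
    obtain ⟨V, hV, haV, haQ⟩ := mem_hit.1 hh
    exact h V ⟨hV, Finset.not_disjoint_iff.2 ⟨a, haV, haQ⟩⟩ ⟨hp, hN⟩ (meets_of ha haV)

lemma card_J_sdiff_hit (hB : ∀ V, Bad V → Clu X V) (R Q : Finset T) :
    ((J X (Q \ hit X Bad R Q)).card : ℤ) = ((J X Q).card : ℤ) -
      ∑ V ∈ H X Bad R Q, (((J X Q).filter fun p => Meets X p V).card : ℤ) := by
  rw [J_sdiff_hit]
  have hsub : ((H X Bad R Q).biUnion fun V => (J X Q).filter fun p => Meets X p V) ⊆ J X Q := by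
    intro p hp
    obtain ⟨V, -, hV⟩ := Finset.mem_biUnion.1 hp
    exact (Finset.mem_filter.1 hV).1
  rw [Finset.card_sdiff_of_subset hsub, Nat.cast_sub (Finset.card_le_card hsub)]
  congr 1
  rw [Finset.card_biUnion]
  · push_cast
    rfl
  · intro V hV V' hV' hne
    show Disjoint (Finset.filter _ _) (Finset.filter _ _)
    rw [Finset.disjoint_left]
    intro p hp hp'
    rw [Finset.mem_filter] at hp hp'
    exact hne (S_unique hB (mem_H.1 hV).1 (mem_H.1 hV').1 (mem_J'.1 hp.1).1 hp.2 hp'.2)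

/-- The total cost. -/
lemma sum_cost (hB : ∀ V, Bad V → Clu X V) (R Q : Finset T) :
    ∑ V ∈ H X Bad R Q, cost X V Q = 2 * ((hit X Bad R Q).card : ℤ) -
      (((J X Q).card : ℤ) - ((J X (Q \ hit X Bad R Q)).card : ℤ)) := by
  unfold cost
  rw [Finset.sum_sub_distrib, ← Finset.mul_sum, card_hit hB, card_J_sdiff_hit hB]
  push_cast
  ring

lemma card_sdiff_hit (R Q : Finset T) :
    ((Q \ hit X Bad R Q).card : ℤ) = (Q.card : ℤ) - ((hit X Bad R Q).card : ℤ) := by
  rw [Finset.card_sdiff_of_subset hit_sub, Nat.cast_sub (Finset.card_le_card hit_sub)]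

/-! ### the inequalities -/

/-- A cluster closed by `Q` and not adjacent to the hits is closed by `Q` minus the hits. -/
lemma S_sdiff_hit {R Q V : Finset T} (hV : V ∈ S X Bad Q) (hL : V ∉ L X Bad R Q) :
    V ∈ S X Bad (Q \ hit X Bad R Q) := by
  rw [mem_S']
  refine ⟨S_sub hV, S_bad hV, S_viab hV, (S_disj hV).mono_right Finset.sdiff_subset, ?_⟩
  intro p hp hm a ha
  rcases Finset.mem_union.1 (S_N hV hp hm ha) with h | h
  · exact Finset.mem_union_left _ h
  · refine Finset.mem_union_right _ (Finset.mem_sdiff.2 ⟨h, fun hh => hL ?_⟩)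
    exact mem_L.2 ⟨hV, p, hp, hm, meets_of ha hh⟩

/-- Removing the hits of `Q` from `Q`. -/
lemma rem_hit (hB : ∀ V, Bad V → Clu X V) (R Q : Finset T) :
    F X Bad Q - 2 * ((L X Bad R Q).card : ℤ) + ∑ V ∈ H X Bad R Q, cost X V Q ≤
      F X Bad (Q \ hit X Bad R Q) := by
  have h1 : ((S X Bad Q).card : ℤ) - ((L X Bad R Q).card : ℤ) ≤
      ((S X Bad (Q \ hit X Bad R Q)).card : ℤ) := by
    have hsub : S X Bad Q \ L X Bad R Q ⊆ S X Bad (Q \ hit X Bad R Q) := by
      intro V hV
      rw [Finset.mem_sdiff] at hV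
      exact S_sdiff_hit hV.1 hV.2
    have hLS : L X Bad R Q ⊆ S X Bad Q := Finset.filter_subset _ _
    have := Finset.card_le_card hsub
    rw [Finset.card_sdiff_of_subset hLS] at this
    have h2 := Finset.card_le_card hLS
    omega
  rw [sum_cost hB]
  unfold F
  rw [card_sdiff_hit]
  linarith

/-- The same, one better, if a hit cluster has all its tokens in `Q`. -/
lemma rem_hit' (hB : ∀ V, Bad V → Clu X V) {R Q V₀ : Finset T} (hV₀ : V₀ ∈ H X Bad R Q)
    (hN : ∀ p ∈ X.A, Meets X p V₀ → X.N p ⊆ V₀ ∪ Q) :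
    F X Bad Q - 2 * ((L X Bad R Q).card : ℤ) + 2 + ∑ V ∈ H X Bad R Q, cost X V Q ≤
      F X Bad (Q \ hit X Bad R Q) := by
  have hV₀S : V₀ ∈ S X Bad R := (mem_H.1 hV₀).1
  have hmem : V₀ ∈ S X Bad (Q \ hit X Bad R Q) := by
    rw [mem_S']
    refine ⟨S_sub hV₀S, S_bad hV₀S, S_viab hV₀S, ?_, ?_⟩
    · rw [Finset.disjoint_left]
      intro a ha ha'
      rw [Finset.mem_sdiff] at ha'
      exact ha'.2 (mem_hit.2 ⟨V₀, hV₀S, ha, ha'.1⟩)
    · intro p hp hm a ha
      by_cases haV : a ∈ V₀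
      · exact Finset.mem_union_left _ haV
      · refine Finset.mem_union_right _ (Finset.mem_sdiff.2 ⟨?_, ?_⟩)
        · rcases Finset.mem_union.1 (hN p hp hm ha) with h | h
          · exact absurd h haV
          · exact h
        · intro hh
          obtain ⟨V, hV, h1, h2⟩ := mem_hit.1 hh
          have := S_unique hB hV hV₀S hp (meets_of ha h1) hm
          rw [this] at h1
          exact haV h1
  have hnot : V₀ ∉ S X Bad Q := by
    intro h
    exact (mem_H.1 hV₀).2 (S_disj h)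
  have h1 : ((S X Bad Q).card : ℤ) - ((L X Bad R Q).card : ℤ) + 1 ≤
      ((S X Bad (Q \ hit X Bad R Q)).card : ℤ) := by
    have hsub : insert V₀ (S X Bad Q \ L X Bad R Q) ⊆ S X Bad (Q \ hit X Bad R Q) := by
      intro V hV
      rw [Finset.mem_insert] at hV
      rcases hV with rfl | hV
      · exact hmem
      · rw [Finset.mem_sdiff] at hV
        exact S_sdiff_hit hV.1 hV.2
    have hLS : L X Bad R Q ⊆ S X Bad Q := Finset.filter_subset _ _
    have := Finset.card_le_card hsub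
    rw [Finset.card_insert_of_notMem (fun h => hnot (Finset.mem_sdiff.1 h).1),
      Finset.card_sdiff_of_subset hLS] at this
    have h2 := Finset.card_le_card hLS
    omega
  rw [sum_cost hB]
  unfold F
  rw [card_sdiff_hit]
  linarith

/-- The union closes everything closed by `R`. -/
lemma S_union_left {R Q V : Finset T} (hV : V ∈ S X Bad R) :
    V ∈ S X Bad (R ∪ (Q \ hit X Bad R Q)) := by
  rw [mem_S']
  refine ⟨S_sub hV, S_bad hV, S_viab hV, ?_, ?_⟩
  · rw [Finset.disjoint_left]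
    intro a ha ha'
    rw [Finset.mem_union, Finset.mem_sdiff] at ha'
    rcases ha' with h | h
    · exact (Finset.disjoint_left.1 (S_disj hV)) ha h
    · exact h.2 (mem_hit.2 ⟨V, hV, ha, h.1⟩)
  · intro p hp hm a ha
    rcases Finset.mem_union.1 (S_N hV hp hm ha) with h | h
    · exact Finset.mem_union_left _ h
    · exact Finset.mem_union_right _ (Finset.mem_union_left _ h)

/-- The union closes the clusters closed by `Q` and not hit by `R`. -/
lemma S_union_right (hB : ∀ V, Bad V → Clu X V) {R Q V : Finset T} (hV : V ∈ S X Bad Q)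
    (hd : Disjoint V R) : V ∈ S X Bad (R ∪ (Q \ hit X Bad R Q)) := by
  rw [mem_S']
  refine ⟨S_sub hV, S_bad hV, S_viab hV, ?_, ?_⟩
  · rw [Finset.disjoint_union_right]
    exact ⟨hd, (S_disj hV).mono_right Finset.sdiff_subset⟩
  · intro p hp hm a ha
    rcases Finset.mem_union.1 (S_N hV hp hm ha) with h | h
    · exact Finset.mem_union_left _ h
    · refine Finset.mem_union_right _ (Finset.mem_union_right _ (Finset.mem_sdiff.2 ⟨h, ?_⟩))
      intro hh
      exact not_adj hB hV hd hp hm (meets_of ha hh)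

lemma S_inter {R Q V : Finset T} (hV : V ∈ S X Bad R) (hV' : V ∈ S X Bad Q) :
    V ∈ S X Bad (R ∩ Q) := by
  rw [mem_S']
  refine ⟨S_sub hV, S_bad hV, S_viab hV, (S_disj hV).mono_right Finset.inter_subset_left, ?_⟩
  intro p hp hm a ha
  by_cases haV : a ∈ V
  · exact Finset.mem_union_left _ haV
  · refine Finset.mem_union_right _ (Finset.mem_inter.2 ⟨?_, ?_⟩)
    · by_contra h
      exact haV ((S_mem hV hp hm ha).2 h)
    · by_contra h
      exact haV ((S_mem hV' hp hm ha).2 h)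

/-- UNCROSSING. -/
lemma uncross (hB : ∀ V, Bad V → Clu X V) (R Q : Finset T) :
    F X Bad R + F X Bad Q - 2 * ((H X Bad Q R).card : ℤ) + ∑ V ∈ H X Bad R Q, cost X V Q ≤
      F X Bad (R ∪ (Q \ hit X Bad R Q)) + F X Bad (R ∩ Q) := by
  -- sizes
  have hc : ((R ∪ (Q \ hit X Bad R Q)).card : ℤ) + ((R ∩ Q).card : ℤ) =
      (R.card : ℤ) + ((Q.card : ℤ) - ((hit X Bad R Q).card : ℤ)) := by
    rw [← card_sdiff_hit]
    have h1 := Finset.card_union_add_card_inter R (Q \ hit X Bad R Q)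
    have h2 : R ∩ (Q \ hit X Bad R Q) = R ∩ Q := by
      ext a
      simp only [mem_inter, mem_sdiff]
      constructor
      · rintro ⟨h1, h2, -⟩
        exact ⟨h1, h2⟩
      · rintro ⟨h1, h2⟩
        exact ⟨h1, h2, fun h => (Finset.disjoint_left.1 hit_disj) h h1⟩
    rw [h2] at h1
    exact_mod_cast h1
  -- players
  have hJ : ((J X R).card : ℤ) + ((J X (Q \ hit X Bad R Q)).card : ℤ) ≤
      ((J X (R ∪ (Q \ hit X Bad R Q))).card : ℤ) + ((J X (R ∩ Q)).card : ℤ) := by
    have h1 := Finset.card_union_add_card_inter (J X R) (J X (Q \ hit X Bad R Q))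
    have h2 : J X R ∪ J X (Q \ hit X Bad R Q) ⊆ J X (R ∪ (Q \ hit X Bad R Q)) := by
      intro p hp
      rw [Finset.mem_union] at hp
      rcases hp with hp | hp
      · rw [mem_J'] at hp ⊢
        exact ⟨hp.1, hp.2.trans Finset.subset_union_left⟩
      · rw [mem_J'] at hp ⊢
        exact ⟨hp.1, hp.2.trans Finset.subset_union_right⟩
    have h3 : J X R ∩ J X (Q \ hit X Bad R Q) ⊆ J X (R ∩ Q) := by
      intro p hp
      rw [Finset.mem_inter, mem_J', mem_J'] at hp
      rw [mem_J']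
      exact ⟨hp.1.1, Finset.subset_inter hp.1.2 (hp.2.2.trans Finset.sdiff_subset)⟩
    have h4 := Finset.card_le_card h2
    have h5 := Finset.card_le_card h3
    omega
  -- clusters
  have hS : ((S X Bad R).card : ℤ) + ((S X Bad Q).card : ℤ) - ((H X Bad Q R).card : ℤ) ≤
      ((S X Bad (R ∪ (Q \ hit X Bad R Q))).card : ℤ) + ((S X Bad (R ∩ Q)).card : ℤ) := by
    have hHS : H X Bad Q R ⊆ S X Bad Q := Finset.filter_subset _ _
    have h1 := Finset.card_union_add_card_inter (S X Bad R) (S X Bad Q \ H X Bad Q R)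
    have h2 : S X Bad R ∪ (S X Bad Q \ H X Bad Q R) ⊆ S X Bad (R ∪ (Q \ hit X Bad R Q)) := by
      intro V hV
      rw [Finset.mem_union, Finset.mem_sdiff, mem_H] at hV
      rcases hV with hV | ⟨hV, hV'⟩
      · exact S_union_left hV
      · refine S_union_right hB hV ?_
        by_contra hd
        exact hV' ⟨hV, hd⟩
    have h3 : S X Bad R ∩ (S X Bad Q \ H X Bad Q R) ⊆ S X Bad (R ∩ Q) := by
      intro V hV
      rw [Finset.mem_inter, Finset.mem_sdiff] at hV
      exact S_inter hV.1 hV.2.1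
    have h4 := Finset.card_le_card h2
    have h5 := Finset.card_le_card h3
    rw [Finset.card_sdiff_of_subset hHS] at h1
    have h6 := Finset.card_le_card hHS
    omega
  rw [sum_cost hB]
  unfold F
  linarith

/-! ### the cost of a hit -/

/-- A player of `J Q` meeting a cluster `V` has its `V`-targets in `V ∩ Q`. -/
lemma filter_sub_Ei (V Q : Finset T) :
    ((J X Q).filter fun p => Meets X p V) ⊆ Ei X V (V ∩ Q) := by
  intro p hp
  rw [Finset.mem_filter, mem_J'] at hp
  rw [Ei, Finset.mem_filter]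
  refine ⟨hp.1.1, hp.2, fun a ha => ?_⟩
  rw [Finset.mem_inter] at ha
  exact Finset.mem_inter.2 ⟨ha.2, hp.1.2 ha.1⟩

lemma Ei_single {V : Finset T} (h : Clu X V) {D : Finset T} (hD : D.card ≤ 1) :
    Ei X V D = ∅ := by
  rw [Finset.eq_empty_iff_forall_notMem]
  intro p hp
  rw [Ei, Finset.mem_filter] at hp
  have h2 := h.two p hp.1 hp.2.1
  have := Finset.card_le_card hp.2.2
  omega

/-- The cost of a hit is at least 2. -/
lemma two_le_cost {V Q : Finset T} (h : Clu X V) (hq : ¬ Disjoint V Q) : 2 ≤ cost X V Q := by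
  have hpos : 0 < (V ∩ Q).card := Finset.card_pos.2 (Finset.not_disjoint_iff_nonempty_inter.1 hq)
  have h1 := Finset.card_le_card (filter_sub_Ei (X := X) V Q)
  unfold cost
  rcases Nat.lt_or_ge (V ∩ Q).card 2 with h2 | h2
  · rw [Ei_single h (by omega)] at h1
    simp only [card_empty] at h1
    omega
  · have h3 := h.sp2 (V ∩ Q) Finset.inter_subset_left h2
    omega

/-- The cost of a hit with at least two elements is at least 3. -/
lemma three_le_cost {V Q : Finset T} (h : Clu X V) (hq : 2 ≤ (V ∩ Q).card) :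
    3 ≤ cost X V Q := by
  have h1 := Finset.card_le_card (filter_sub_Ei (X := X) V Q)
  have h3 := h.sp2 (V ∩ Q) Finset.inter_subset_left hq
  unfold cost
  omega

/-- The cost of a hit with at least three elements is at least 4. -/
lemma four_le_cost {V Q : Finset T} (h : Clu X V) (hq : 3 ≤ (V ∩ Q).card) :
    4 ≤ cost X V Q := by
  have h1 := Finset.card_le_card (filter_sub_Ei (X := X) V Q)
  have h3 := h.sp3 (V ∩ Q) Finset.inter_subset_left hq
  unfold cost
  omega

/-- Cost 3: an adjacent pair, joined by exactly one player of `J Q`. -/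
lemma cost_three {V Q : Finset T} (h : Clu X V) (hq : 2 ≤ (V ∩ Q).card)
    (hc : cost X V Q ≤ 3) : (V ∩ Q).card = 2 ∧
      ∃ y ∈ X.A, X.N y ⊆ Q ∧ X.N y ∩ V = V ∩ Q ∧
        ∀ p ∈ J X Q, Meets X p V → p = y := by
  have h2 : (V ∩ Q).card = 2 := by
    by_contra hne
    have := four_le_cost h (by omega : 3 ≤ (V ∩ Q).card)
    omega
  refine ⟨h2, ?_⟩
  have h3 := three_le_cost h hq
  unfold cost at hc h3
  have hcard : ((J X Q).filter fun p => Meets X p V).card = 1 := by omega
  obtain ⟨y, hy⟩ := Finset.card_eq_one.1 hcard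
  have hyy : y ∈ (J X Q).filter fun p => Meets X p V := by rw [hy]; simp
  rw [Finset.mem_filter, mem_J'] at hyy
  refine ⟨y, hyy.1.1, hyy.1.2, ?_, ?_⟩
  · apply Finset.eq_of_subset_of_card_le
    · intro a ha
      rw [Finset.mem_inter] at ha
      exact Finset.mem_inter.2 ⟨ha.2, hyy.1.2 ha.1⟩
    · rw [h.two y hyy.1.1 hyy.2, h2]
  · intro p hp hm
    have : p ∈ (J X Q).filter fun p => Meets X p V := Finset.mem_filter.2 ⟨hp, hm⟩
    rw [hy, Finset.mem_singleton] at this
    exact this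

/-- A single hit is not adjacent: if `V'` is closed by `Q` and `V' ∩ R` is a single target then
`V'` is not adjacent to the hits of `Q` in the clusters closed by `R`. -/
lemma single_not_adj (hB : ∀ V, Bad V → Clu X V) {R Q V' : Finset T} (h' : V' ∈ S X Bad Q)
    (hs : (V' ∩ R).card ≤ 1) : V' ∉ L X Bad R Q := by
  intro hL
  obtain ⟨-, p, hp, hm, hh⟩ := mem_L.1 hL
  by_cases hd : Disjoint V' R
  · exact not_adj hB h' hd hp hm hh
  have hpos : 0 < (V' ∩ R).card := Finset.card_pos.2 (Finset.not_disjoint_iff_nonempty_inter.1 hd)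
  obtain ⟨d', hd'⟩ := Finset.card_eq_one.1 (by omega : (V' ∩ R).card = 1)
  have hd'm : d' ∈ V' ∧ d' ∈ R := by
    have : d' ∈ V' ∩ R := by rw [hd']; simp
    exact Finset.mem_inter.1 this
  have hall : ∀ a ∈ V', a ≠ d' → a ∉ R := by
    intro a ha hne haR
    have : a ∈ V' ∩ R := Finset.mem_inter.2 ⟨ha, haR⟩
    rw [hd', Finset.mem_singleton] at this
    exact hne this
  obtain ⟨d, hdp, hdh⟩ := meets_iff.1 hh
  obtain ⟨V, hV, hdV, hdQ⟩ := mem_hit.1 hdh
  have hmV : Meets X p V := meets_of hdp hdV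
  have hC := hB V (S_bad hV)
  have hC' := hB V' (S_bad h')
  -- a V'-target of p outside R
  obtain ⟨o, hoN, hoV', hone⟩ : ∃ o ∈ X.N p, o ∈ V' ∧ o ≠ d' := by
    have h2 := hC'.two p hp hm
    obtain ⟨o, ho, hne⟩ := Finset.exists_mem_ne (by omega : 1 < (X.N p ∩ V').card) d'
    exact ⟨o, (Finset.mem_inter.1 ho).1, (Finset.mem_inter.1 ho).2, hne⟩
  have hoV : o ∈ V := (S_mem hV hp hmV hoN).2 (hall o hoV' hone)
  -- V' \ {d'} is inside V
  have hsub : V'.erase d' ⊆ V := by
    by_contra hns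
    have hLsub : (V'.erase d') ∩ V ⊆ V'.erase d' := Finset.inter_subset_left
    have hLne : ((V'.erase d') ∩ V).Nonempty :=
      ⟨o, Finset.mem_inter.2 ⟨Finset.mem_erase.2 ⟨hone, hoV'⟩, hoV⟩⟩
    have hLneq : (V'.erase d') ∩ V ≠ V'.erase d' := fun h => hns (Finset.inter_eq_left.1 h)
    obtain ⟨q, hq, hq1, hq2⟩ := hC'.conn d' _ hLsub hLne hLneq
    obtain ⟨b, hb, hb'⟩ := meets_iff.1 hq2
    rw [Finset.mem_sdiff, Finset.mem_inter, Finset.mem_erase] at hb'
    have hmq : Meets X q V := mmono hq1 Finset.inter_subset_right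
    exact hb'.2 ⟨hb'.1, (S_mem hV hq hmq hb).2 (hall b hb'.1.2 hb'.1.1)⟩
  -- every player at d' meets V
  have hpl : ∀ q ∈ X.A, d' ∈ X.N q → Meets X q V := by
    intro q hq hdq
    have hmq : Meets X q V' := meets_of hdq hd'm.1
    have h2 := hC'.two q hq hmq
    obtain ⟨e, he, hne⟩ := Finset.exists_mem_ne (by omega : 1 < (X.N q ∩ V').card) d'
    rw [Finset.mem_inter] at he
    exact meets_of he.1 (hsub (Finset.mem_erase.2 ⟨hne, he.2⟩))
  have hd'V : d' ∉ V := fun h => (Finset.disjoint_left.1 (S_disj hV)) h hd'm.2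
  obtain ⟨q, hq, hqN⟩ := clu_player hC' hd'm.1
  obtain ⟨r, hr, hrN, hrm⟩ := S_viab hV d' hd'V ⟨q, hq, hqN, hpl q hq hqN⟩
  exact hrm (hpl r hr hrN)

/-- (2.3): adjacent clusters cost at least 3, the other hit clusters at least 2. -/
lemma sum_cost_ge (hB : ∀ V, Bad V → Clu X V) (R Q : Finset T) :
    2 * ((H X Bad Q R).card : ℤ) + ((L X Bad R Q).card : ℤ) ≤
      ∑ V ∈ H X Bad Q R, cost X V R := by
  have hsub : L X Bad R Q ⊆ H X Bad Q R := L_sub_H hB
  rw [← Finset.sum_sdiff hsub]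
  have h1 : ∑ V ∈ H X Bad Q R \ L X Bad R Q, (2 : ℤ) ≤
      ∑ V ∈ H X Bad Q R \ L X Bad R Q, cost X V R := by
    apply Finset.sum_le_sum
    intro V hV
    rw [Finset.mem_sdiff, mem_H] at hV
    exact two_le_cost (hB V (S_bad hV.1.1)) hV.1.2
  have h2 : ∑ V ∈ L X Bad R Q, (3 : ℤ) ≤ ∑ V ∈ L X Bad R Q, cost X V R := by
    apply Finset.sum_le_sum
    intro V hV
    have hVS := (mem_L.1 hV).1
    refine three_le_cost (hB V (S_bad hVS)) ?_
    by_contra hlt
    exact single_not_adj hB hVS (by omega) hV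
  rw [Finset.sum_const, Finset.card_sdiff_of_subset hsub] at h1
  rw [Finset.sum_const] at h2
  have h3 := Finset.card_le_card hsub
  simp only [nsmul_eq_mul] at h1 h2
  push_cast [Nat.cast_sub h3] at h1
  linarith

end Pool.Agent.TDL.H34
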